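import Mathlib

namespace Pool.Agent.MPc2b80f

open Polynomial

section roots

variable {R L : Type*} [CommRing R] [NormedField L]

theorem root_bound {p : R[X]} (hp : p.Monic) (i : R →+* L) {r : L} (hr : p.eval₂ i r = 0) :
    ‖r‖ ≤ 1 + ∑ j ∈ Finset.range p.natDegree, ‖i (p.coeff j)‖ := by
  have hsum : 0 ≤ ∑ j ∈ Finset.range p.natDegree, ‖i (p.coeff j)‖ :=
    Finset.sum_nonneg fun _ _ => norm_nonneg _
  rcases le_or_gt ‖r‖ 1 with h | h
  · linarith
  rw [eval₂_eq_sum_range, Finset.sum_range_succ, hp.coeff_natDegree, map_one, one_mul] at hr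
  set n := p.natDegree with hn
  have h1 : ‖r‖ ^ n ≤ ∑ j ∈ Finset.range n, ‖i (p.coeff j)‖ * ‖r‖ ^ j := by
    rw [← norm_pow, eq_neg_of_add_eq_zero_right hr, norm_neg]
    refine (norm_sum_le _ _).trans (le_of_eq ?_)
    refine Finset.sum_congr rfl fun j _ => ?_
    rw [norm_mul, norm_pow]
  rcases Nat.eq_zero_or_pos n with h0 | h0
  · rw [h0] at h1
    simp at h1
    exact absurd h1 (by norm_num)
  have h2 : ∑ j ∈ Finset.range n, ‖i (p.coeff j)‖ * ‖r‖ ^ j ≤
      (∑ j ∈ Finset.range n, ‖i (p.coeff j)‖) * ‖r‖ ^ (n - 1) := by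
    rw [Finset.sum_mul]
    refine Finset.sum_le_sum fun j hj => ?_
    refine mul_le_mul_of_nonneg_left ?_ (norm_nonneg _)
    exact pow_le_pow_right₀ h.le (by have := Finset.mem_range.1 hj; omega)
  have h3 : ‖r‖ ^ n = ‖r‖ * ‖r‖ ^ (n - 1) := by
    rw [← pow_succ']
    congr 1
    omega
  have h4 : 0 < ‖r‖ ^ (n - 1) := by positivity
  have h5 : ‖r‖ ≤ ∑ j ∈ Finset.range n, ‖i (p.coeff j)‖ := by
    have := h1.trans h2
    rw [h3] at this
    exact le_of_mul_le_mul_right this h4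
  linarith

theorem nonarch_sum_le (hL : IsNonarchimedean (norm : L → ℝ)) {ι : Type*} (s : Finset ι)
    (f : ι → L) {B : ℝ} (hB : 0 ≤ B) (h : ∀ j ∈ s, ‖f j‖ ≤ B) : ‖∑ j ∈ s, f j‖ ≤ B := by
  classical
  induction s using Finset.induction_on with
  | empty => simpa using hB
  | insert a s ha ih =>
    rw [Finset.sum_insert ha]
    refine (hL _ _).trans (max_le (h a (Finset.mem_insert_self _ _)) (ih fun j hj =>
      h j (Finset.mem_insert_of_mem hj)))

theorem root_bound_ultra (hL : IsNonarchimedean (norm : L → ℝ)) {p : R[X]} (hp : p.Monic)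
    (i : R →+* L) (hc : ∀ j, ‖i (p.coeff j)‖ ≤ 1) {r : L} (hr : p.eval₂ i r = 0) :
    ‖r‖ ≤ 1 := by
  by_contra h
  rw [not_le] at h
  rw [eval₂_eq_sum_range, Finset.sum_range_succ, hp.coeff_natDegree, map_one, one_mul] at hr
  set n := p.natDegree with hn
  rcases Nat.eq_zero_or_pos n with h0 | h0
  · rw [h0] at hr
    simp at hr
  have h1 : ‖r‖ ^ n ≤ ‖r‖ ^ (n - 1) := by
    rw [← norm_pow, eq_neg_of_add_eq_zero_right hr, norm_neg]
    refine nonarch_sum_le hL _ _ (by positivity) fun j hj => ?_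
    rw [norm_mul, norm_pow]
    have : ‖r‖ ^ j ≤ ‖r‖ ^ (n - 1) :=
      pow_le_pow_right₀ h.le (by have := Finset.mem_range.1 hj; omega)
    calc ‖i (p.coeff j)‖ * ‖r‖ ^ j ≤ 1 * ‖r‖ ^ j :=
          mul_le_mul_of_nonneg_right (hc j) (by positivity)
      _ ≤ ‖r‖ ^ (n - 1) := by rwa [one_mul]
  have h2 : ‖r‖ ^ (n - 1) < ‖r‖ ^ n := pow_lt_pow_right₀ h (by omega)
  linarith

theorem multiset_coeff_ultra (hL : IsNonarchimedean (norm : L → ℝ)) {B : ℝ} (hB : 1 ≤ B)
    (s : Multiset L) (h : ∀ z ∈ s, ‖z‖ ≤ B) (j : ℕ) :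
    ‖((s.map fun z => X - C z).prod).coeff j‖ ≤ B ^ (Multiset.card s) := by
  induction s using Multiset.induction_on generalizing j with
  | empty =>
    simp only [Multiset.map_zero, Multiset.prod_zero, Multiset.card_zero, pow_zero, coeff_one]
    split_ifs <;> simp
  | cons a s ih =>
    have hs : ∀ z ∈ s, ‖z‖ ≤ B := fun z hz => h z (Multiset.mem_cons_of_mem hz)
    rw [Multiset.map_cons, Multiset.prod_cons, Multiset.card_cons, sub_mul]
    have hB0 : 0 ≤ B ^ (Multiset.card s) := by positivity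
    have hle : B ^ (Multiset.card s) ≤ B ^ (Multiset.card s + 1) :=
      pow_le_pow_right₀ hB (Nat.le_succ _)
    rw [coeff_sub, sub_eq_add_neg]
    refine (hL _ _).trans (max_le ?_ ?_)
    · cases j with
      | zero => simpa using by positivity
      | succ j =>
        rw [coeff_X_mul]
        exact (ih hs j).trans hle
    · rw [norm_neg, coeff_C_mul, norm_mul, pow_succ, mul_comm]
      exact mul_le_mul (ih hs j) (h a (Multiset.mem_cons_self _ _)) (norm_nonneg _) hB0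

theorem coeff_bound_ultra [IsAlgClosed L] (hL : IsNonarchimedean (norm : L → ℝ)) {B : ℝ}
    (hB : 1 ≤ B) {p : R[X]} (hp : p.Monic) (i : R →+* L) (D : ℕ) (hD : p.natDegree ≤ D)
    (h : ∀ r, p.eval₂ i r = 0 → ‖r‖ ≤ B) (j : ℕ) : ‖i (p.coeff j)‖ ≤ B ^ D := by
  have hs := IsAlgClosed.splits (p.map i)
  have hm : (p.map i).Monic := hp.map i
  have h1 : p.map i = ((p.map i).roots.map fun z => X - C z).prod :=
    hs.eq_prod_roots_of_monic hm
  have h2 : ‖(p.map i).coeff j‖ ≤ B ^ (Multiset.card (p.map i).roots) := by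
    conv_lhs => rw [h1]
    refine multiset_coeff_ultra hL hB _ (fun z hz => h z ?_) j
    have := (mem_roots hm.ne_zero).1 hz
    rwa [IsRoot.def, eval_map] at this
  rw [coeff_map] at h2
  refine h2.trans (pow_le_pow_right₀ hB ?_)
  rw [← hs.natDegree_eq_card_roots, hp.natDegree_map]
  exact hD

theorem coeff_bound_arch [IsAlgClosed L] {B : ℝ} (hB : 1 ≤ B) {p : R[X]} (hp : p.Monic)
    (i : R →+* L) (D : ℕ) (hD : p.natDegree ≤ D) (h : ∀ r, p.eval₂ i r = 0 → ‖r‖ ≤ B) (j : ℕ) :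
    ‖i (p.coeff j)‖ ≤ B ^ D * D.choose (D / 2) := by
  have hs := IsAlgClosed.splits (p.map i)
  have hm : (p.map i).Monic := hp.map i
  have := coeff_bdd_of_roots_le i hp hs hD (B := B) (fun z hz => h z (by
    have := (mem_roots hm.ne_zero).1 hz
    rwa [IsRoot.def, eval_map] at this)) j
  rw [coeff_map, max_eq_left hB] at this
  exact this

end roots

/-- polynomial growth -/
theorem poly_growth (p : ℂ[X]) : ∃ (C : ℝ) (B : ℕ), 0 ≤ C ∧ ∀ z : ℂ,
    ‖p.eval z‖ ≤ C * (1 + ‖z‖) ^ B := by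
  refine ⟨∑ j ∈ Finset.range (p.natDegree + 1), ‖p.coeff j‖, p.natDegree,
    Finset.sum_nonneg fun _ _ => norm_nonneg _, fun z => ?_⟩
  rw [eval_eq_sum_range, Finset.sum_mul]
  refine (norm_sum_le _ _).trans (Finset.sum_le_sum fun j hj => ?_)
  rw [norm_mul, norm_pow]
  refine mul_le_mul_of_nonneg_left ?_ (norm_nonneg _)
  have h1 : 1 ≤ 1 + ‖z‖ := by linarith [norm_nonneg z]
  calc ‖z‖ ^ j ≤ (1 + ‖z‖) ^ j := pow_le_pow_left₀ (norm_nonneg _) (by linarith) _
    _ ≤ (1 + ‖z‖) ^ p.natDegree :=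
      pow_le_pow_right₀ h1 (by have := Finset.mem_range.1 hj; omega)

theorem const_of_growth (p : ℂ[X]) {C : ℝ} {S : Set ℂ} (hS : Sᶜ.Countable)
    (h : ∀ z ∈ S, ‖p.eval z‖ ≤ C * (1 + ‖z‖) ^ (1 / 2 : ℝ)) : p.eval 0 = p.eval 1 := by
  -- extend by density
  have hall : ∀ z : ℂ, ‖p.eval z‖ ≤ C * (1 + ‖z‖) ^ (1 / 2 : ℝ) := by
    have hdense : Dense S := by
      have := hS.dense_compl ℝ
      rwa [compl_compl] at this
    have hclosed : IsClosed {z : ℂ | ‖p.eval z‖ ≤ C * (1 + ‖z‖) ^ (1 / 2 : ℝ)} := by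
      refine isClosed_le p.continuous.norm ?_
      refine continuous_const.mul ?_
      exact (continuous_const.add continuous_norm).rpow_const fun z => Or.inr (by norm_num)
    intro z
    have : closure S ⊆ {z : ℂ | ‖p.eval z‖ ≤ C * (1 + ‖z‖) ^ (1 / 2 : ℝ)} :=
      closure_minimal h hclosed
    exact this (hdense z)
  -- write `p = X * q + c`
  have hdiv := divX_mul_X_add p
  set q := p.divX with hq
  by_cases hq0 : q = 0
  · rw [← hdiv, hq0]
    simp
  exfalso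
  -- bound for `q` at natural numbers
  have hqb : ∀ n : ℕ, 1 ≤ n → ‖q.eval (n : ℂ)‖ ≤
      (|C| * (2 : ℝ) ^ (1 / 2 : ℝ) + ‖p.coeff 0‖) * (n : ℝ) ^ (-(1 / 2) : ℝ) := by
    intro n hn
    have hn' : (1 : ℝ) ≤ n := by exact_mod_cast hn
    have hn0 : (0 : ℝ) < n := by linarith
    have e1 : p.eval (n : ℂ) = q.eval (n : ℂ) * n + p.coeff 0 := by
      conv_lhs => rw [← hdiv]
      simp
    have e2 : ‖q.eval (n : ℂ)‖ * n ≤ ‖p.eval (n : ℂ)‖ + ‖p.coeff 0‖ := by
      have : q.eval (n : ℂ) * n = p.eval (n : ℂ) - p.coeff 0 := by rw [e1]; ring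
      calc ‖q.eval (n : ℂ)‖ * n = ‖q.eval (n : ℂ) * n‖ := by simp
        _ ≤ _ := by rw [this]; exact norm_sub_le _ _
    have e3 : (1 + ‖(n : ℂ)‖) ^ (1 / 2 : ℝ) ≤ (2 : ℝ) ^ (1 / 2 : ℝ) * (n : ℝ) ^ (1 / 2 : ℝ) := by
      rw [← Real.mul_rpow (by norm_num) hn0.le]
      refine Real.rpow_le_rpow (by positivity) ?_ (by norm_num)
      simp
      linarith
    have e4 : ‖p.eval (n : ℂ)‖ ≤ |C| * ((2 : ℝ) ^ (1 / 2 : ℝ) * (n : ℝ) ^ (1 / 2 : ℝ)) := by
      refine (hall n).trans ?_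
      refine (mul_le_mul_of_nonneg_right (le_abs_self C) (by positivity)).trans ?_
      exact mul_le_mul_of_nonneg_left e3 (abs_nonneg C)
    have e5 : (1 : ℝ) ≤ (n : ℝ) ^ (1 / 2 : ℝ) := Real.one_le_rpow hn' (by norm_num)
    have e6 : ‖q.eval (n : ℂ)‖ * n ≤
        (|C| * (2 : ℝ) ^ (1 / 2 : ℝ) + ‖p.coeff 0‖) * (n : ℝ) ^ (1 / 2 : ℝ) := by
      nlinarith [norm_nonneg (p.coeff 0)]
    have e7 : (n : ℝ) ^ (1 / 2 : ℝ) = (n : ℝ) ^ (-(1 / 2) : ℝ) * n := by
      conv_rhs => rw [← Real.rpow_one (n : ℝ), ← Real.rpow_mul hn0.le, ← Real.rpow_add hn0]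
      norm_num
    rw [e7, ← mul_assoc] at e6
    exact le_of_mul_le_mul_right e6 hn0
  have hlim : Filter.Tendsto (fun n : ℕ => (|C| * (2 : ℝ) ^ (1 / 2 : ℝ) + ‖p.coeff 0‖) *
      (n : ℝ) ^ (-(1 / 2) : ℝ)) Filter.atTop (nhds 0) := by
    have h1 := (tendsto_rpow_neg_atTop (y := 1 / 2) (by norm_num)).comp
      (tendsto_natCast_atTop_atTop (R := ℝ))
    have h2 := h1.const_mul (|C| * (2 : ℝ) ^ (1 / 2 : ℝ) + ‖p.coeff 0‖)
    rw [mul_zero] at h2
    exact h2
  have hq1 : Filter.Tendsto (fun n : ℕ => ‖q.eval (n : ℂ)‖) Filter.atTop (nhds 0) := by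
    refine squeeze_zero' (Filter.Eventually.of_forall fun n => norm_nonneg _) ?_ hlim
    filter_upwards [Filter.eventually_ge_atTop 1] with n hn using hqb n hn
  rcases Nat.eq_zero_or_pos q.natDegree with hd | hd
  · rw [natDegree_eq_zero] at hd
    obtain ⟨c, hc⟩ := hd
    have hc0 : c ≠ 0 := by
      rintro rfl
      exact hq0 (by rw [← hc]; simp)
    have : (fun n : ℕ => ‖q.eval (n : ℂ)‖) = fun _ => ‖c‖ := by
      ext n
      rw [← hc]
      simp
    rw [this] at hq1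
    exact hc0 (norm_eq_zero.1 (tendsto_nhds_unique tendsto_const_nhds hq1))
  · have hinf := q.tendsto_norm_atTop (natDegree_pos_iff_degree_pos.1 hd) (z := fun n : ℕ => (n : ℂ))
      (l := Filter.atTop) (by simpa using tendsto_natCast_atTop_atTop (R := ℝ))
    exact not_tendsto_nhds_of_tendsto_atTop hinf 0 hq1

section scaling

variable {d : ℕ}

/-- The one-variable polynomial `ξ ↦ c(ξ x)`. -/
noncomputable def scalePoly (x : Fin d → ℂ) (c : MvPolynomial (Fin d) ℚ) : ℂ[X] :=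
  MvPolynomial.aeval (fun i => C (x i) * X) c

theorem eval_scalePoly (x : Fin d → ℂ) (c : MvPolynomial (Fin d) ℚ) (z : ℂ) :
    (scalePoly x c).eval z = MvPolynomial.aeval (fun i => x i * z) c := by
  have h : ((Polynomial.aeval z : ℂ[X] →ₐ[ℂ] ℂ).restrictScalars ℚ).comp
      (MvPolynomial.aeval (fun i => C (x i) * X) : MvPolynomial (Fin d) ℚ →ₐ[ℚ] ℂ[X]) =
      MvPolynomial.aeval (fun i => x i * z) := by
    apply MvPolynomial.algHom_ext
    intro i
    simp
  have := congrArg (fun f => f c) h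
  simpa [scalePoly, Polynomial.aeval_def, eval₂_eq_eval_map] using this

theorem countable_bad (x : Fin d → ℂ)
    (hx : Function.Injective (MvPolynomial.aeval x : MvPolynomial (Fin d) ℚ →ₐ[ℚ] ℂ)) :
    {z : ℂ | Function.Injective (MvPolynomial.aeval (fun i => x i * z) :
      MvPolynomial (Fin d) ℚ →ₐ[ℚ] ℂ)}ᶜ.Countable := by
  haveI : Countable (MvPolynomial (Fin d) ℚ) := by
    rw [← Cardinal.mk_le_aleph0_iff]
    refine MvPolynomial.cardinalMk_le_max.trans ?_
    simp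
  have hsub : {z : ℂ | Function.Injective (MvPolynomial.aeval (fun i => x i * z) :
      MvPolynomial (Fin d) ℚ →ₐ[ℚ] ℂ)}ᶜ ⊆
      ⋃ c : {c : MvPolynomial (Fin d) ℚ // c ≠ 0}, {z : ℂ | (scalePoly x c.1).IsRoot z} := by
    intro z hz
    rw [Set.mem_compl_iff, Set.mem_setOf_eq, injective_iff_map_eq_zero] at hz
    push Not at hz
    obtain ⟨c, hc, hc0⟩ := hz
    rw [Set.mem_iUnion]
    refine ⟨⟨c, hc0⟩, ?_⟩
    rw [Set.mem_setOf_eq, IsRoot.def, eval_scalePoly]
    exact hc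
  refine Set.Countable.mono hsub (Set.countable_iUnion fun c => ?_)
  have hne : scalePoly x c.1 ≠ 0 := by
    intro h0
    have h1 := eval_scalePoly x c.1 1
    rw [h0, eval_zero] at h1
    simp only [mul_one] at h1
    apply c.2
    apply hx
    rw [map_zero]
    exact h1.symm
  have hfin : {z : ℂ | (scalePoly x c.1).IsRoot z}.Finite := by
    refine Set.Finite.subset (scalePoly x c.1).roots.toFinset.finite_toSet fun z hz => ?_
    simp only [Finset.mem_coe, Multiset.mem_toFinset]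
    exact (mem_roots hne).2 hz
  exact hfin.countable

theorem const_of_scale (x : Fin d → ℂ)
    (hx : Function.Injective (MvPolynomial.aeval x : MvPolynomial (Fin d) ℚ →ₐ[ℚ] ℂ))
    (c : MvPolynomial (Fin d) ℚ) (h : (scalePoly x c).eval 0 = (scalePoly x c).eval 1) :
    c = MvPolynomial.C (MvPolynomial.constantCoeff c) := by
  apply hx
  rw [eval_scalePoly, eval_scalePoly] at h
  simp only [mul_zero, mul_one] at h
  rw [← h, MvPolynomial.aeval_C]
  have : (MvPolynomial.aeval (fun _ : Fin d => (0 : ℂ))) c =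
      algebraMap ℚ ℂ (MvPolynomial.constantCoeff c) := MvPolynomial.aeval_zero' c
  exact this

end scaling

end Pool.Agent.MPc2b80f
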