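import Mathlib

/-!
Basic objects for the weak commensurability problem in `SL(2, ℂ)`.
-/

namespace Pool.Agent.MPc2b80f

open Matrix

/-- `SL(2, ℂ)`, with its topology as a set of complex matrices. -/
abbrev G2 : Type := Matrix.SpecialLinearGroup (Fin 2) ℂ

/-- The size of a matrix: the sum of the absolute values of its entries. -/
noncomputable def size (g : G2) : ℝ := ∑ i, ∑ j, ‖g.1 i j‖

/-- `z` is an eigenvalue of `g` acting on `ℂ²`. -/
def IsEigenvalue (g : G2) (z : ℂ) : Prop := ∃ v : Fin 2 → ℂ, v ≠ 0 ∧ g.1 *ᵥ v = z • v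

/-- `g` is semisimple: `ℂ²` has a basis of eigenvectors of `g`. -/
def IsSemisimpleElt (g : G2) : Prop :=
  ∃ (v : Fin 2 → Fin 2 → ℂ) (z : Fin 2 → ℂ),
    LinearIndependent ℂ v ∧ ∀ i, g.1 *ᵥ (v i) = z i • v i

/-- Weak commensurability in `SL(2, ℂ)`: the characters of a maximal torus are the powers of an
eigenvalue. -/
def WeaklyComm (g h : G2) : Prop :=
  ∃ z w : ℂ, IsEigenvalue g z ∧ IsEigenvalue h w ∧ ∃ k l : ℤ, z ^ k = w ^ l ∧ z ^ k ≠ 1

/-- `Γ` has cheap words: for finite sets `S` (any elements) and `U` (elements of trace `2` or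
`-2`) and a constant `C`, every `g ∈ Γ` is a product of letters `s ^ 1`, `s ∈ S`, and `u ^ n`,
`u ∈ U`, `n ∈ ℤ`, the letter `x ^ n` costing `log (2 + |n|)`, with total cost at most
`C (1 + log (size g))`. -/
def CheapWords (Γ : Subgroup G2) : Prop :=
  ∃ (S U : Finset G2) (C : ℝ), (∀ u ∈ U, u.1.trace = 2 ∨ u.1.trace = -2) ∧
    ∀ g ∈ Γ, ∃ L : List (G2 × ℤ),
      (∀ x ∈ L, (x.1 ∈ S ∧ x.2 = 1) ∨ x.1 ∈ U) ∧
      (L.map fun x => x.1 ^ x.2).prod = g ∧
      (L.map fun x => Real.log (2 + |(x.2 : ℝ)|)).sum ≤ C * (1 + Real.log (size g))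

/-- `N` restricts to a (real valued) absolute value on the subfield `K` of `ℂ`. -/
structure AbsOn (K : Subfield ℂ) (N : ℂ → ℝ) : Prop where
  nonneg : ∀ z, 0 ≤ N z
  zero : N 0 = 0
  one : N 1 = 1
  mul : ∀ a ∈ K, ∀ b ∈ K, N (a * b) = N a * N b
  add : ∀ a ∈ K, ∀ b ∈ K, N (a + b) ≤ N a + N b

/-- `N` satisfies the ultrametric inequality on `K`. -/
def Ultra (K : Subfield ℂ) (N : ℂ → ℝ) : Prop :=
  ∀ a ∈ K, ∀ b ∈ K, N (a + b) ≤ max (N a) (N b)

/-- size with respect to `N`. -/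
noncomputable def nsz (N : ℂ → ℝ) (g : Matrix (Fin 2) (Fin 2) ℂ) : ℝ := ∑ i, ∑ j, N (g i j)

/-- all entries in `K`. -/
def InK (K : Subfield ℂ) (g : Matrix (Fin 2) (Fin 2) ℂ) : Prop := ∀ i j, g i j ∈ K

/-- The quantity `2 + 4 * ∑ N a` attached to a finite set of numbers. -/
noncomputable def wt (A : Finset ℂ) (N : ℂ → ℝ) : ℝ := 2 + 4 * ∑ a ∈ A, N a

end Pool.Agent.MPc2b80f
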