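import Pool.Agent.Lib.MP_c2b80f_al.Transfer

namespace Pool.Agent.MPc2b80f

open Matrix Topology

theorem minors {a b c a' b' c' : ℂ} (h1 : a * a + b * c = 0) (h2 : a' * a' + b' * c' = 0)
    (h3 : 2 * a * a' + b * c' + c * b' = 0) :
    a * b' = a' * b ∧ a * c' = a' * c ∧ b * c' = b' * c := by
  refine ⟨?_, ?_, ?_⟩
  · have : (a * b' - a' * b) ^ 2 = 0 := by
      linear_combination b' ^ 2 * h1 + b ^ 2 * h2 - b * b' * h3
    exact sub_eq_zero.1 (pow_eq_zero_iff (two_ne_zero) |>.1 this)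
  · have : (a * c' - a' * c) ^ 2 = 0 := by
      linear_combination c' ^ 2 * h1 + c ^ 2 * h2 - c * c' * h3
    exact sub_eq_zero.1 (pow_eq_zero_iff (two_ne_zero) |>.1 this)
  · have : (b * c' - b' * c) ^ 2 = 0 := by
      have e1 : b * c = - (a * a) := by linear_combination h1
      have e2 : b' * c' = - (a' * a') := by linear_combination h2
      have e3 : b * c' + c * b' = - (2 * a * a') := by linear_combination h3
      calc (b * c' - b' * c) ^ 2 = (b * c' + c * b') ^ 2 - 4 * (b * c) * (b' * c') := by ring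
        _ = 0 := by rw [e1, e2, e3]; ring
    exact sub_eq_zero.1 (pow_eq_zero_iff (two_ne_zero) |>.1 this)

/-- unipotent data -/
theorem unip_data (g : G2) (ht : g.1.trace = 2) :
    (g.1 0 0 - 1) * (g.1 0 0 - 1) + g.1 0 1 * g.1 1 0 = 0 ∧ g.1 1 1 - 1 = -(g.1 0 0 - 1) := by
  have hd := g.2
  rw [Matrix.det_fin_two] at hd
  rw [Matrix.trace_fin_two] at ht
  constructor
  · linear_combination g.1 0 0 * ht - hd
  · linear_combination ht

theorem ne_one_data (g : G2) (ht : g.1.trace = 2) (h : g ≠ 1) :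
    g.1 0 0 - 1 ≠ 0 ∨ g.1 0 1 ≠ 0 ∨ g.1 1 0 ≠ 0 := by
  by_contra hcon
  push Not at hcon
  obtain ⟨h0, h1, h2⟩ := hcon
  apply h
  ext i j
  obtain ⟨-, h3⟩ := unip_data g ht
  rw [h0, neg_zero] at h3
  rw [Matrix.SpecialLinearGroup.coe_one]
  fin_cases i <;> fin_cases j
  · simpa using sub_eq_zero.1 h0
  · simpa using h1
  · simpa using h2
  · simpa using sub_eq_zero.1 h3

theorem fix_iff (g : G2) (v : Fin 2 → ℂ) : g.1 *ᵥ v = v ↔
    (g.1 0 0 - 1) * v 0 + g.1 0 1 * v 1 = 0 ∧ g.1 1 0 * v 0 + (g.1 1 1 - 1) * v 1 = 0 := by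
  constructor
  · intro h
    have e0 := congrFun h 0
    have e1 := congrFun h 1
    simp only [Matrix.mulVec, dotProduct, Fin.sum_univ_two] at e0 e1
    constructor
    · linear_combination e0
    · linear_combination e1
  · rintro ⟨h0, h1⟩
    ext i
    fin_cases i
    · simp only [Matrix.mulVec, dotProduct, Fin.sum_univ_two]
      simp only [Fin.zero_eta]
      linear_combination h0
    · simp only [Matrix.mulVec, dotProduct, Fin.sum_univ_two]
      simp only [Fin.mk_one]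
      linear_combination h1

/-- Two unipotents with unipotent product have the same fixed vectors. -/
theorem same_fix {g h : G2} (hg : g.1.trace = 2) (hh : h.1.trace = 2)
    (hgh : (g * h).1.trace = 2) (hg1 : g ≠ 1) {v : Fin 2 → ℂ} (hv : g.1 *ᵥ v = v) :
    h.1 *ᵥ v = v := by
  obtain ⟨q1, r1⟩ := unip_data g hg
  obtain ⟨q2, r2⟩ := unip_data h hh
  have hne := ne_one_data g hg hg1
  rw [fix_iff] at hv ⊢
  rw [Matrix.SpecialLinearGroup.coe_mul, Matrix.trace_fin_two, Matrix.mul_apply,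
    Matrix.mul_apply, Fin.sum_univ_two, Fin.sum_univ_two] at hgh
  obtain ⟨v0, v1⟩ := hv
  rw [r1] at v1
  rw [r2]
  have r1' : g.1 1 1 = 2 - g.1 0 0 := by linear_combination r1
  have r2' : h.1 1 1 = 2 - h.1 0 0 := by linear_combination r2
  rw [r1', r2'] at hgh
  have q3 : 2 * (g.1 0 0 - 1) * (h.1 0 0 - 1) + g.1 0 1 * h.1 1 0 + g.1 1 0 * h.1 0 1 = 0 := by
    linear_combination hgh
  obtain ⟨m1, m2, m3⟩ := minors q1 q2 q3
  generalize g.1 0 0 - 1 = a at *
  generalize g.1 0 1 = b at *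
  generalize g.1 1 0 = c at *
  generalize h.1 0 0 - 1 = a' at *
  generalize h.1 0 1 = b' at *
  generalize h.1 1 0 = c' at *
  rcases hne with h0 | h0 | h0
  · constructor
    · apply mul_left_cancel₀ h0
      linear_combination a' * v0 + v 1 * m1
    · apply mul_left_cancel₀ h0
      linear_combination a' * v1 + v 0 * m2
  · constructor
    · apply mul_left_cancel₀ h0
      linear_combination b' * v0 - v 0 * m1
    · apply mul_left_cancel₀ h0
      linear_combination b' * v1 + v 0 * m3 + v 1 * m1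
  · constructor
    · apply mul_left_cancel₀ h0
      linear_combination c' * v0 - v 0 * m2 - v 1 * m3
    · apply mul_left_cancel₀ h0
      linear_combination c' * v1 + v 1 * m2

/-- the fixed vectors of a nontrivial unipotent form a line -/
theorem fix_line {g : G2} (hg : g.1.trace = 2) (hg1 : g ≠ 1) {v w : Fin 2 → ℂ} (hv0 : v ≠ 0)
    (hv : g.1 *ᵥ v = v) (hw : g.1 *ᵥ w = w) : ∃ c : ℂ, w = c • v := by
  obtain ⟨q1, r1⟩ := unip_data g hg
  have hne := ne_one_data g hg hg1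
  rw [fix_iff] at hv hw
  obtain ⟨v0, v1⟩ := hv
  obtain ⟨w0, w1⟩ := hw
  rw [r1] at v1 w1
  have hdet : v 0 * w 1 = v 1 * w 0 := by
    generalize g.1 0 0 - 1 = a at *
    generalize g.1 0 1 = b at *
    generalize g.1 1 0 = c at *
    rcases hne with h0 | h0 | h0
    · apply mul_left_cancel₀ h0
      linear_combination w 1 * v0 - v 1 * w0
    · apply mul_left_cancel₀ h0
      linear_combination v 0 * w0 - w 0 * v0
    · apply mul_left_cancel₀ h0
      linear_combination w 1 * v1 - v 1 * w1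
  by_cases h0 : v 0 = 0
  · have h1 : v 1 ≠ 0 := by
      intro h1
      apply hv0
      ext i
      fin_cases i
      · exact h0
      · exact h1
    refine ⟨w 1 / v 1, ?_⟩
    ext i
    fin_cases i
    · simp only [Fin.zero_eta, Pi.smul_apply, smul_eq_mul]
      rw [h0, zero_mul] at hdet
      rw [h0, mul_zero]
      exact (mul_eq_zero.1 hdet.symm).resolve_left h1
    · simp only [Fin.mk_one, Pi.smul_apply, smul_eq_mul]
      field_simp
  · refine ⟨w 0 / v 0, ?_⟩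
    ext i
    fin_cases i
    · simp only [Fin.zero_eta, Pi.smul_apply, smul_eq_mul]
      field_simp
    · simp only [Fin.mk_one, Pi.smul_apply, smul_eq_mul]
      field_simp
      linear_combination hdet

theorem continuous_trace : Continuous fun g : G2 => g.1.trace := by
  have : (fun g : G2 => g.1.trace) = fun g : G2 => g.1 0 0 + g.1 1 1 := by
    ext g
    rw [Matrix.trace_fin_two]
  rw [this]
  have h : Continuous fun g : G2 => g.1 := continuous_subtype_val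
  exact (h.matrix_elem 0 0).add (h.matrix_elem 1 1)

/-- The key consequence of non-discreteness. -/
theorem infinite_traces {Γ : Subgroup G2} (hnd : ¬ DiscreteTopology Γ)
    (hirr : ¬ ∃ v : Fin 2 → ℂ, v ≠ 0 ∧ ∀ g ∈ Γ, ∃ c : ℂ, g.1 *ᵥ v = c • v)
    {ε : ℝ} (hε : 0 < ε) : {t : ℂ | ‖t - 2‖ < ε ∧ ∃ g ∈ Γ, g.1.trace = t}.Infinite := by
  intro hfin
  apply hirr
  have hone : (1 : G2).1.trace = 2 := by
    rw [Matrix.SpecialLinearGroup.coe_one]
    simp [Matrix.trace_fin_two]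
  -- shrink
  obtain ⟨V1, hV1o, h1V1, hV1⟩ : ∃ V1 : Set G2, IsOpen V1 ∧ (1 : G2) ∈ V1 ∧
      ∀ g ∈ V1, g ∈ Γ → g.1.trace = 2 := by
    set T := {t : ℂ | ‖t - 2‖ < ε ∧ ∃ g ∈ Γ, g.1.trace = t} \ {2} with hT
    have hTf : T.Finite := hfin.subset Set.diff_subset
    refine ⟨{g : G2 | ‖g.1.trace - 2‖ < ε} ∩ (fun g : G2 => g.1.trace) ⁻¹' Tᶜ, ?_, ?_, ?_⟩
    · refine IsOpen.inter ?_ (hTf.isClosed.isOpen_compl.preimage continuous_trace)
      exact isOpen_lt (continuous_trace.sub continuous_const).norm continuous_const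
    · refine ⟨?_, ?_⟩
      · show ‖(1 : G2).1.trace - 2‖ < ε
        rw [hone]
        simpa using hε
      · show (1 : G2).1.trace ∈ Tᶜ
        rw [hone]
        intro h
        exact h.2 rfl
    · rintro g ⟨hg1, hg2⟩ hgΓ
      by_contra hne
      exact hg2 ⟨⟨hg1, g, hgΓ, rfl⟩, hne⟩
  have hV1n : V1 ∈ 𝓝 (1 : G2) := hV1o.mem_nhds h1V1
  obtain ⟨V, hVo, h1V, hVV⟩ : ∃ V : Set G2, IsOpen V ∧ (1 : G2) ∈ V ∧
      ∀ g ∈ V, ∀ h ∈ V, g * h ∈ V1 := by
    obtain ⟨V, hVo, h1V, hVV⟩ := exists_open_nhds_one_mul_subset hV1n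
    exact ⟨V, hVo, h1V, fun g hg h hh => hVV (Set.mul_mem_mul hg hh)⟩
  have hVn : V ∈ 𝓝 (1 : G2) := hVo.mem_nhds h1V
  have hVV1 : ∀ g ∈ V, g ∈ V1 := fun g hg => by simpa using hVV g hg 1 h1V
  -- nontrivial elements close to one
  have hclose : ∀ A ∈ 𝓝 (1 : G2), ∃ g ∈ Γ, g ∈ A ∧ g ≠ 1 := by
    intro A hA
    by_contra hcon
    push Not at hcon
    apply hnd
    refine discreteTopology_of_isOpen_singleton_one ?_
    rw [isOpen_iff_mem_nhds]
    intro x hx
    rw [Set.mem_singleton_iff] at hx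
    subst hx
    have hpre : (Subtype.val : Γ → G2) ⁻¹' A ∈ 𝓝 (1 : Γ) :=
      continuous_subtype_val.continuousAt.preimage_mem_nhds (by simpa using hA)
    refine Filter.mem_of_superset hpre ?_
    intro y hy
    have := hcon y.1 y.2 hy
    exact Subtype.ext this
  obtain ⟨g0, hg0Γ, hg0V, hg01⟩ := hclose V hVn
  have hg0t : g0.1.trace = 2 := hV1 g0 (hVV1 _ hg0V) hg0Γ
  obtain ⟨v, hv0, hv⟩ := exists_eigenvector (g := g0) (z := 1) one_ne_zero (by
    rw [hg0t]; norm_num)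
  rw [one_smul] at hv
  refine ⟨v, hv0, fun γ hγ => ?_⟩
  obtain ⟨g, hgΓ, ⟨hgV, hgγ⟩, hg1⟩ := hclose (V ∩ (fun g => γ * g * γ⁻¹) ⁻¹' V) (by
    refine Filter.inter_mem hVn ?_
    have hcont : Continuous fun g : G2 => γ * g * γ⁻¹ :=
      (continuous_const.mul continuous_id).mul continuous_const
    exact hcont.continuousAt.preimage_mem_nhds (by simpa using hVn))
  have hgγ' : γ * g * γ⁻¹ ∈ V := hgγ
  set h := γ * g * γ⁻¹ with hh
  have hhΓ : h ∈ Γ := Γ.mul_mem (Γ.mul_mem hγ hgΓ) (Γ.inv_mem hγ)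
  have hgt : g.1.trace = 2 := hV1 g (hVV1 _ hgV) hgΓ
  have hht : h.1.trace = 2 := hV1 h (hVV1 _ hgγ') hhΓ
  have hh1 : h ≠ 1 := by
    intro h1
    apply hg1
    have : g = γ⁻¹ * h * γ := by rw [hh]; group
    rw [this, h1]
    group
  have hgv : g.1 *ᵥ v = v :=
    same_fix hg0t hgt (hV1 _ (hVV g0 hg0V g hgV) (Γ.mul_mem hg0Γ hgΓ)) hg01 hv
  have hhγv : h.1 *ᵥ (γ.1 *ᵥ v) = γ.1 *ᵥ v := by
    have e : h * γ = γ * g := by rw [hh]; group
    rw [Matrix.mulVec_mulVec, ← Matrix.SpecialLinearGroup.coe_mul, e,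
      Matrix.SpecialLinearGroup.coe_mul, ← Matrix.mulVec_mulVec, hgv]
  have hg0γv : g0.1 *ᵥ (γ.1 *ᵥ v) = γ.1 *ᵥ v :=
    same_fix hht hg0t (hV1 _ (hVV h hgγ' g0 hg0V) (Γ.mul_mem hhΓ hg0Γ)) hh1 hhγv
  exact fix_line hg0t hg01 hv0 hv hg0γv

theorem root_close {δ : ℝ} (hδ : 0 < δ) : ∃ ε > 0, ∀ t x : ℂ, ‖t - 2‖ < ε → x ≠ 0 →
    x + x⁻¹ = t → ‖x‖ ≤ Real.exp δ := by
  set E := Real.exp δ with hE
  have hE1 : 1 < E := Real.one_lt_exp_iff.2 hδ
  refine ⟨(E - 1) ^ 2 / E, by have := sub_pos.2 hE1; positivity, ?_⟩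
  intro t x ht hx0 hxt
  by_contra hlt
  rw [not_le] at hlt
  have h1 : (x - 1) ^ 2 = (t - 2) * x := by
    have e1 : x * x⁻¹ = 1 := mul_inv_cancel₀ hx0
    rw [← hxt]
    linear_combination (-1 : ℂ) * e1
  have h2 : ‖x - 1‖ ^ 2 = ‖t - 2‖ * ‖x‖ := by rw [← norm_pow, h1, norm_mul]
  have h3 : ‖x‖ - 1 ≤ ‖x - 1‖ := by
    have := norm_sub_norm_le x 1
    rwa [norm_one] at this
  set r := ‖x‖ with hr
  have h4 : (r - 1) ^ 2 ≤ ‖t - 2‖ * r := by
    rw [← h2]
    exact pow_le_pow_left₀ (by linarith) h3 2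
  have h5 : ‖t - 2‖ * r < (E - 1) ^ 2 / E * r :=
    mul_lt_mul_of_pos_right ht (by linarith)
  have h6 : (r - 1) ^ 2 < (E - 1) ^ 2 / E * r := lt_of_le_of_lt h4 h5
  have hEpos : 0 < E := by linarith
  rw [div_mul_eq_mul_div, lt_div_iff₀ hEpos] at h6
  nlinarith [mul_pos (sub_pos.2 hlt) (by nlinarith : 0 < r * E - 1)]

end Pool.Agent.MPc2b80f
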