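import Pool.Agent.Lib.MP_c2b80f_al.Transfer

namespace Pool.Agent.MPc2b80f

open Polynomial

section Abstract

theorem ext_root (R F K : Type*) [CommRing R] [IsDomain R] [IsIntegrallyClosed R] [Field F]
    [Algebra R F] [IsFractionRing R F] [Field K] [Algebra F K] [Algebra R K]
    [IsScalarTower R F K] [Algebra.IsAlgebraic F K] {L : Type*} [Field L] [IsAlgClosed L] (i : R →+* L)
    (hi : Function.Injective i) {t : K} (ht : IsIntegral R t) {r : L}
    (hr : (minpoly R t).eval₂ i r = 0) :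
    ∃ φ : K →+* L, (∀ a : R, φ (algebraMap R K a) = i a) ∧ φ t = r := by
  let j : F →+* L := IsFractionRing.lift hi
  have hj : ∀ a : R, j (algebraMap R F a) = i a := fun a => IsFractionRing.lift_algebraMap hi a
  letI : Algebra F L := j.toAlgebra
  have hmin : minpoly F t = (minpoly R t).map (algebraMap R F) :=
    minpoly.isIntegrallyClosed_eq_field_fractions' F ht
  have hmem : r ∈ (minpoly F t).rootSet L := by
    rw [Polynomial.mem_rootSet]
    refine ⟨minpoly.ne_zero (Algebra.IsIntegral.isIntegral t), ?_⟩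
    rw [hmin, Polynomial.aeval_def, Polynomial.eval₂_map]
    have : (algebraMap F L).comp (algebraMap R F) = i := by
      ext a
      exact hj a
    rw [this, hr]
  rw [← Algebra.IsAlgebraic.range_eval_eq_rootSet_minpoly L t] at hmem
  obtain ⟨ψ, hψ⟩ := hmem
  refine ⟨ψ.toRingHom, fun a => ?_, hψ⟩
  have h1 : ψ (algebraMap F K (algebraMap R F a)) = algebraMap F L (algebraMap R F a) :=
    ψ.commutes _
  rw [← IsScalarTower.algebraMap_apply R F K] at h1
  exact h1.trans (hj a)

end Abstract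

/-- The absolute value coming from an embedding. -/
noncomputable def absOf (K : Subfield ℂ) {L : Type*} [NormedField L] (φ : K →+* L) (z : ℂ) : ℝ :=
  open Classical in if h : z ∈ K then ‖φ ⟨z, h⟩‖ else 0

theorem absOf_eq (K : Subfield ℂ) {L : Type*} [NormedField L] (φ : K →+* L) {z : ℂ} (h : z ∈ K) :
    absOf K φ z = ‖φ ⟨z, h⟩‖ := by
  rw [absOf, dif_pos h]

theorem absOn_absOf (K : Subfield ℂ) {L : Type*} [NormedField L] (φ : K →+* L) :
    AbsOn K (absOf K φ) where
  nonneg z := by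
    rw [absOf]
    split_ifs
    · exact norm_nonneg _
    · exact le_rfl
  zero := by
    rw [absOf_eq K φ K.zero_mem]
    have : (⟨0, K.zero_mem⟩ : K) = 0 := rfl
    rw [this, map_zero, norm_zero]
  one := by
    rw [absOf_eq K φ K.one_mem]
    have : (⟨1, K.one_mem⟩ : K) = 1 := rfl
    rw [this, map_one, norm_one]
  mul a ha b hb := by
    rw [absOf_eq K φ ha, absOf_eq K φ hb, absOf_eq K φ (K.mul_mem ha hb)]
    have : (⟨a * b, K.mul_mem ha hb⟩ : K) = ⟨a, ha⟩ * ⟨b, hb⟩ := rfl
    rw [this, map_mul, norm_mul]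
  add a ha b hb := by
    rw [absOf_eq K φ ha, absOf_eq K φ hb, absOf_eq K φ (K.add_mem ha hb)]
    have : (⟨a + b, K.add_mem ha hb⟩ : K) = ⟨a, ha⟩ + ⟨b, hb⟩ := rfl
    rw [this, map_add]
    exact norm_add_le _ _

theorem ultra_absOf (K : Subfield ℂ) {L : Type*} [NormedField L] (φ : K →+* L)
    (hL : IsNonarchimedean (norm : L → ℝ)) : Ultra K (absOf K φ) := by
  intro a ha b hb
  rw [absOf_eq K φ ha, absOf_eq K φ hb, absOf_eq K φ (K.add_mem ha hb)]
  have : (⟨a + b, K.add_mem ha hb⟩ : K) = ⟨a, ha⟩ + ⟨b, hb⟩ := rfl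
  rw [this, map_add]
  exact hL _ _

/-- Interface: everything we need from field theory. -/
theorem setup (A₀ : Finset ℂ) : ∃ (d : ℕ) (x : Fin d → ℂ) (K : Subfield ℂ) (D : ℕ)
    (P : ℂ → Polynomial (MvPolynomial (Fin d) ℚ)),
    Function.Injective (MvPolynomial.aeval x : MvPolynomial (Fin d) ℚ →ₐ[ℚ] ℂ) ∧
    (∀ a ∈ A₀, a ∈ K) ∧ EigClosed K ∧
    (∀ t ∈ Subring.closure (A₀ : Set ℂ), (P t).Monic ∧ (P t).natDegree ≤ D ∧
      (P t).eval₂ (MvPolynomial.aeval x : MvPolynomial (Fin d) ℚ →ₐ[ℚ] ℂ).toRingHom t = 0 ∧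
      ∀ (L : Type) [NormedField L] [IsAlgClosed L] [Algebra ℚ L] (y : Fin d → L),
        Function.Injective (MvPolynomial.aeval y : MvPolynomial (Fin d) ℚ →ₐ[ℚ] L) → ∀ r : L,
        (P t).eval₂ (MvPolynomial.aeval y : MvPolynomial (Fin d) ℚ →ₐ[ℚ] L).toRingHom r = 0 →
        ∃ N : ℂ → ℝ, AbsOn K N ∧ (IsNonarchimedean (norm : L → ℝ) → Ultra K N) ∧ N t = ‖r‖ ∧
          ∀ a ∈ A₀, ∃ s : L, N a = ‖s‖ ∧
            (P a).eval₂ (MvPolynomial.aeval y : MvPolynomial (Fin d) ℚ →ₐ[ℚ] L).toRingHom s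
              = 0) := by
  classical
  let A : Subalgebra ℚ ℂ := Algebra.adjoin ℚ (A₀ : Set ℂ)
  haveI : Algebra.FiniteType ℚ A := by
    rw [← Subalgebra.fg_iff_finiteType]
    exact ⟨A₀, rfl⟩
  obtain ⟨d, g, hginj, hgint⟩ := exists_integral_inj_algHom_of_fg ℚ A
  let x : Fin d → ℂ := fun i => (g (MvPolynomial.X i) : ℂ)
  have hx : (MvPolynomial.aeval x : MvPolynomial (Fin d) ℚ →ₐ[ℚ] ℂ) = A.val.comp g := by
    apply MvPolynomial.algHom_ext
    intro i
    simp [x]
  have hxinj : Function.Injective (MvPolynomial.aeval x : MvPolynomial (Fin d) ℚ →ₐ[ℚ] ℂ) := by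
    rw [hx]
    exact (Subtype.val_injective).comp hginj
  letI algR : Algebra (MvPolynomial (Fin d) ℚ) ℂ :=
    (MvPolynomial.aeval x : MvPolynomial (Fin d) ℚ →ₐ[ℚ] ℂ).toRingHom.toAlgebra
  have hmapR : ∀ a, algebraMap (MvPolynomial (Fin d) ℚ) ℂ a = MvPolynomial.aeval x a :=
    fun a => rfl
  let F := FractionRing (MvPolynomial (Fin d) ℚ)
  letI algF : Algebra F ℂ := (IsFractionRing.lift (K := F) (g := (MvPolynomial.aeval x :
    MvPolynomial (Fin d) ℚ →ₐ[ℚ] ℂ).toRingHom) hxinj).toAlgebra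
  haveI tower : IsScalarTower (MvPolynomial (Fin d) ℚ) F ℂ := by
    refine IsScalarTower.of_algebraMap_eq fun a => ?_
    exact (IsFractionRing.lift_algebraMap (K := F) (g := (MvPolynomial.aeval x :
      MvPolynomial (Fin d) ℚ →ₐ[ℚ] ℂ).toRingHom) hxinj a).symm
  -- elements of `A` are integral
  have hint : ∀ t ∈ A, IsIntegral (MvPolynomial (Fin d) ℚ) t := by
    intro t ht
    obtain ⟨p, hp, hpe⟩ := hgint ⟨t, ht⟩
    refine ⟨p, hp, ?_⟩
    have h1 := congrArg A.val hpe
    rw [map_zero] at h1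
    rw [← h1]
    have : algebraMap (MvPolynomial (Fin d) ℚ) ℂ = A.val.toRingHom.comp g.toRingHom := by
      ext a
      · simp
      · rw [hmapR, hx]
        rfl
    rw [this]
    exact (Polynomial.hom_eval₂ p g.toRingHom A.val.toRingHom ⟨t, ht⟩).symm
  let Kf : IntermediateField F ℂ := algebraicClosure F ℂ
  let K : Subfield ℂ := Kf.toSubfield
  have hAK : ∀ t ∈ A, t ∈ K := by
    intro t ht
    show t ∈ algebraicClosure F ℂ
    rw [mem_algebraicClosure_iff']
    exact (hint t ht).tower_top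
  have hcl : ∀ t ∈ Subring.closure (A₀ : Set ℂ), t ∈ A := by
    intro t ht
    have : Subring.closure (A₀ : Set ℂ) ≤ A.toSubring := by
      rw [Subring.closure_le]
      exact Algebra.subset_adjoin
    exact this ht
  have hA0 : ∀ a ∈ A₀, a ∈ A := fun a ha => Algebra.subset_adjoin ha
  -- finite field
  let E : IntermediateField F ℂ := IntermediateField.adjoin F (A₀ : Set ℂ)
  haveI hfin : FiniteDimensional F E := by
    refine IntermediateField.finiteDimensional_adjoin fun a ha => ?_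
    exact (hint a (hA0 a ha)).tower_top
  have hAE : ∀ t ∈ A, t ∈ E := by
    intro t ht
    have hle : A ≤ (E.toSubalgebra.restrictScalars (MvPolynomial (Fin d) ℚ)).restrictScalars ℚ := by
      refine Algebra.adjoin_le ?_
      intro a ha
      exact IntermediateField.subset_adjoin F _ ha
    exact hle ht
  refine ⟨d, x, K, Module.finrank F E, fun t => minpoly (MvPolynomial (Fin d) ℚ) t, hxinj,
    fun a ha => hAK a (hA0 a ha), ?_, ?_⟩
  · intro t ht z hz0 hz
    show z ∈ algebraicClosure F ℂ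
    rw [mem_algebraicClosure_iff]
    have htK : t ∈ Kf := ht
    -- z is algebraic over Kf
    have h1 : IsAlgebraic Kf z := by
      refine ⟨X ^ 2 - C (⟨t, htK⟩ : Kf) * X + 1, ?_, ?_⟩
      · intro h0
        have := congrArg (fun p => Polynomial.coeff p 2) h0
        simp [Polynomial.coeff_one] at this
      · simp only [map_add, map_sub, map_mul, map_pow, aeval_X, aeval_C, map_one]
        have h2 : algebraMap Kf ℂ ⟨t, htK⟩ = t := rfl
        rw [h2, ← hz]
        have e1 : z * z⁻¹ = 1 := mul_inv_cancel₀ hz0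
        linear_combination (-1 : ℂ) * e1
    haveI : Algebra.IsAlgebraic F Kf := algebraicClosure.isAlgebraic F ℂ
    exact h1.restrictScalars F
  · intro t ht
    have htA := hcl t ht
    have htK := hAK t htA
    refine ⟨minpoly.monic (hint t htA), ?_, ?_, ?_⟩
    · have e1 : (minpoly (MvPolynomial (Fin d) ℚ) t).natDegree = (minpoly F t).natDegree := by
        rw [minpoly.isIntegrallyClosed_eq_field_fractions' F (hint t htA),
          (minpoly.monic (hint t htA)).natDegree_map]
      rw [e1]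
      have e2 : minpoly F t = minpoly F (⟨t, hAE t htA⟩ : E) :=
        (minpoly.algebraMap_eq (algebraMap E ℂ).injective (⟨t, hAE t htA⟩ : E))
      rw [e2]
      exact minpoly.natDegree_le _
    · exact minpoly.aeval (MvPolynomial (Fin d) ℚ) t
    · intro L _ _ _ y hy r hr
      haveI : Algebra.IsAlgebraic F Kf := algebraicClosure.isAlgebraic F ℂ
      haveI tower2 : IsScalarTower (MvPolynomial (Fin d) ℚ) Kf ℂ := by
        refine IsScalarTower.of_algebraMap_eq fun a => ?_
        have := IsScalarTower.algebraMap_apply (MvPolynomial (Fin d) ℚ) F Kf a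
        rw [this]
        exact IsScalarTower.algebraMap_apply (MvPolynomial (Fin d) ℚ) F ℂ a
      have hintK : ∀ s (hs : s ∈ A), IsIntegral (MvPolynomial (Fin d) ℚ)
          (⟨s, hAK s hs⟩ : Kf) := by
        intro s hs
        refine (isIntegral_algebraMap_iff (A := Kf) (B := ℂ) (algebraMap Kf ℂ).injective).1 ?_
        exact hint s hs
      have hminK : ∀ s (hs : s ∈ A), minpoly (MvPolynomial (Fin d) ℚ) (⟨s, hAK s hs⟩ : Kf) =
          minpoly (MvPolynomial (Fin d) ℚ) s := by
        intro s hs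
        exact (minpoly.algebraMap_eq (algebraMap Kf ℂ).injective (⟨s, hAK s hs⟩ : Kf)).symm
      obtain ⟨φ, hφ1, hφ2⟩ := ext_root (MvPolynomial (Fin d) ℚ) F Kf (L := L)
        (MvPolynomial.aeval y : MvPolynomial (Fin d) ℚ →ₐ[ℚ] L).toRingHom hy (hintK t htA)
        (r := r) (by rw [hminK t htA]; exact hr)
      let φ' : K →+* L := φ
      refine ⟨absOf K φ', absOn_absOf K φ', ultra_absOf K φ', ?_, ?_⟩
      · rw [absOf_eq K φ' htK]
        congr 1
      · intro a ha
        refine ⟨φ' ⟨a, hAK a (hA0 a ha)⟩, absOf_eq K φ' _, ?_⟩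
        have h1 : (minpoly (MvPolynomial (Fin d) ℚ) a).eval₂
            (algebraMap (MvPolynomial (Fin d) ℚ) Kf) (⟨a, hAK a (hA0 a ha)⟩ : Kf) = 0 := by
          rw [← hminK a (hA0 a ha)]
          exact minpoly.aeval (MvPolynomial (Fin d) ℚ) (⟨a, hAK a (hA0 a ha)⟩ : Kf)
        have h2 := congrArg φ h1
        rw [map_zero, Polynomial.hom_eval₂] at h2
        have h3 : φ.comp (algebraMap (MvPolynomial (Fin d) ℚ) Kf) =
            (MvPolynomial.aeval y : MvPolynomial (Fin d) ℚ →ₐ[ℚ] L).toRingHom :=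
          RingHom.ext hφ1
        rw [h3] at h2
        exact h2

end Pool.Agent.MPc2b80f
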