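import Pool.Agent.Lib.MP_c2b80f_al.Northcott
import Pool.Agent.Lib.MP_c2b80f_al.Discrete

namespace Pool.Agent.MPc2b80f

open Matrix

/-- matrices with entries in a subring -/
def entrySubgroup (O : Subring ℂ) : Subgroup G2 where
  carrier := {g | ∀ i j, g.1 i j ∈ O}
  mul_mem' := by
    intro a b ha hb i j
    rw [Matrix.SpecialLinearGroup.coe_mul, Matrix.mul_apply]
    exact O.sum_mem fun k _ => O.mul_mem (ha i k) (hb k j)
  one_mem' := by
    intro i j
    rw [Matrix.SpecialLinearGroup.coe_one, Matrix.one_apply]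
    split_ifs
    · exact O.one_mem
    · exact O.zero_mem
  inv_mem' := by
    intro g hg i j
    have h := inv_coe g
    rw [h]
    fin_cases i <;> fin_cases j
    · simpa using hg 1 1
    · simpa using hg 0 1
    · simpa using hg 1 0
    · simpa using hg 0 0

theorem main (Γ₁ Γ₂ : Subgroup G2) (h₁ : CheapWords Γ₁) (h₂ : Γ₂.FG)
    (hirr : ¬ ∃ v : Fin 2 → ℂ, v ≠ 0 ∧ ∀ g ∈ Γ₂, ∃ c : ℂ, g.1 *ᵥ v = c • v)
    (hwc : ∀ g ∈ Γ₂, IsSemisimpleElt g → ¬ IsOfFinOrder g → ∃ h ∈ Γ₁, WeaklyComm g h) :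
    DiscreteTopology Γ₂ := by
  classical
  by_contra hnd
  obtain ⟨S, U, C, hC, hc⟩ := exists_cheap h₁
  obtain ⟨T, hT⟩ := h₂
  set A₀ : Finset ℂ := (S ∪ U ∪ T).biUnion fun g =>
    (Finset.univ : Finset (Fin 2 × Fin 2)).image fun ij => g.1 ij.1 ij.2 with hA₀
  have hmemA : ∀ g ∈ S ∪ U ∪ T, ∀ i j, g.1 i j ∈ A₀ := by
    intro g hg i j
    rw [hA₀, Finset.mem_biUnion]
    exact ⟨g, hg, Finset.mem_image.2 ⟨(i, j), Finset.mem_univ _, rfl⟩⟩
  obtain ⟨K, hAK, hKE, hK⟩ := northcott A₀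
  obtain ⟨δ, hδ, hfin⟩ := hK (3 * C) (by positivity)
  obtain ⟨ε, hε, hroot⟩ := root_close hδ
  refine infinite_traces hnd hirr hε (hfin.subset ?_)
  rintro t ⟨htε, g, hg, rfl⟩
  -- entries of `Γ₂`
  have hgO : g ∈ entrySubgroup (Subring.closure (A₀ : Set ℂ)) := by
    have hle : Γ₂ ≤ entrySubgroup (Subring.closure (A₀ : Set ℂ)) := by
      rw [← hT, Subgroup.closure_le]
      intro h hh i j
      exact Subring.subset_closure (hmemA h (Finset.mem_union_right _ hh) i j)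
    exact hle hg
  have hOK : ∀ z ∈ Subring.closure (A₀ : Set ℂ), z ∈ K := by
    intro z hz
    have hle : Subring.closure (A₀ : Set ℂ) ≤ K.toSubring := by
      rw [Subring.closure_le]
      intro a ha
      exact hAK a ha
    exact hle hz
  have hgK : InK K g.1 := fun i j => hOK _ (hgO i j)
  have htO : g.1.trace ∈ Subring.closure (A₀ : Set ℂ) := by
    rw [Matrix.trace_fin_two]
    exact Subring.add_mem _ (hgO 0 0) (hgO 1 1)
  -- an eigenvalue
  obtain ⟨x, hx0, hxt⟩ : ∃ x : ℂ, x ≠ 0 ∧ x + x⁻¹ = g.1.trace := by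
    obtain ⟨s, hs⟩ := IsAlgClosed.exists_pow_nat_eq (g.1.trace ^ 2 / 4 - 1) (n := 2) (by norm_num)
    have hxp : (g.1.trace / 2 + s) * (g.1.trace / 2 - s) = 1 := by
      linear_combination (-1 : ℂ) * hs
    refine ⟨g.1.trace / 2 + s, left_ne_zero_of_mul_eq_one hxp, ?_⟩
    rw [inv_eq_of_mul_eq_one_right hxp]
    ring
  have hx0' : x⁻¹ ≠ 0 := inv_ne_zero hx0
  have hxt' : x⁻¹ + (x⁻¹)⁻¹ = g.1.trace := by rw [inv_inv, add_comm]; exact hxt
  have hxK : x ∈ K := hKE _ hgK.trace x hx0 hxt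
  have hb1 : ‖x‖ ≤ Real.exp δ := hroot _ x htε hx0 hxt
  have hb2 : ‖x⁻¹‖ ≤ Real.exp δ := hroot _ x⁻¹ htε hx0' hxt'
  have key : ∀ N, AbsOn K N → N x ≤ Real.exp (δ * (3 * C * Real.log (1 + wt A₀ N))) ∧
      N x⁻¹ ≤ Real.exp (δ * (3 * C * Real.log (1 + wt A₀ N))) := by
    intro N hN
    have hsum : 0 ≤ ∑ a ∈ A₀, N a := Finset.sum_nonneg fun a _ => hN.nonneg a
    have hW2 : 2 ≤ wt A₀ N := by
      rw [wt]
      linarith
    have hW : ∀ s, s ∈ S ∨ s ∈ U → InK K s.1 ∧ nsz N s.1 + 2 ≤ wt A₀ N := by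
      intro s hs
      have hs' : s ∈ S ∪ U ∪ T := by
        rcases hs with h | h
        · exact Finset.mem_union_left _ (Finset.mem_union_left _ h)
        · exact Finset.mem_union_left _ (Finset.mem_union_right _ h)
      refine ⟨fun i j => hAK _ (hmemA s hs' i j), ?_⟩
      have hle : ∀ i j, N (s.1 i j) ≤ ∑ a ∈ A₀, N a := fun i j =>
        Finset.single_le_sum (f := N) (fun a _ => hN.nonneg a) (hmemA s hs' i j)
      rw [nsz_def, wt]
      have := hle 0 0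
      have := hle 0 1
      have := hle 1 0
      have := hle 1 1
      linarith
    have hM0 : 0 ≤ 3 * C * Real.log (1 + wt A₀ N) := by
      have : 0 ≤ Real.log (1 + wt A₀ N) := Real.log_nonneg (by linarith)
      positivity
    have hfinal : (max ‖x‖ ‖x⁻¹‖) ^ (3 * C * Real.log (1 + wt A₀ N)) ≤
        Real.exp (δ * (3 * C * Real.log (1 + wt A₀ N))) := by
      rw [Real.exp_mul]
      exact Real.rpow_le_rpow (le_max_of_le_left (norm_nonneg _)) (max_le hb1 hb2) hM0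
    constructor
    · exact (transfer hN hKE hC hc hW2 hW hwc hg hgK hx0 hxt).trans hfinal
    · have h := transfer hN hKE hC hc hW2 hW hwc hg hgK hx0' hxt'
      rw [inv_inv, max_comm] at h
      exact h.trans hfinal
  refine ⟨htO, fun N hN => ?_, fun N hN hU => ?_⟩
  · obtain ⟨h1, h2⟩ := key N hN
    rw [← hxt]
    refine (hN.add x hxK x⁻¹ (K.inv_mem hxK)).trans ?_
    linarith
  · obtain ⟨h1, h2⟩ := key N hN
    rw [← hxt]
    exact (hU x hxK x⁻¹ (K.inv_mem hxK)).trans (max_le h1 h2)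

end Pool.Agent.MPc2b80f
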