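import Mathlib

namespace Pool.Agent.MPc2b80f

open Cardinal

theorem exists_padic (p : ℕ) [Fact p.Prime] (d : ℕ) : ∃ y : Fin d → PadicAlgCl p,
    (∀ i, ‖y i‖ ≤ 1) ∧
    Function.Injective (MvPolynomial.aeval y : MvPolynomial (Fin d) ℚ →ₐ[ℚ] PadicAlgCl p) := by
  classical
  set s : Set (PadicAlgCl p) := {z | ‖z‖ ≤ 1} with hs
  haveI halg : Algebra.IsAlgebraic (Algebra.adjoin ℚ s) (PadicAlgCl p) := by
    refine ⟨fun z => ?_⟩
    by_cases hz : ‖z‖ ≤ 1
    · exact isAlgebraic_algebraMap (A := PadicAlgCl p)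
        (⟨z, Algebra.subset_adjoin hz⟩ : Algebra.adjoin ℚ s)
    · rw [not_le] at hz
      have hz0 : z ≠ 0 := by
        rintro rfl
        rw [norm_zero] at hz
        linarith
      have hzi : z⁻¹ ∈ s := by
        show ‖z⁻¹‖ ≤ 1
        rw [norm_inv]
        exact inv_le_one_of_one_le₀ hz.le
      refine ⟨Polynomial.C (⟨z⁻¹, Algebra.subset_adjoin hzi⟩ : Algebra.adjoin ℚ s) *
        Polynomial.X - 1, ?_, ?_⟩
      · intro h0
        have := congrArg (fun q => Polynomial.coeff q 0) h0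
        simp at this
      · simp only [map_sub, map_mul, Polynomial.aeval_X, Polynomial.aeval_C, map_one]
        have h2 : algebraMap (Algebra.adjoin ℚ s) (PadicAlgCl p)
            ⟨z⁻¹, Algebra.subset_adjoin hzi⟩ = z⁻¹ := rfl
        rw [h2, inv_mul_cancel₀ hz0, sub_self]
  obtain ⟨u, hus, hu⟩ := exists_isTranscendenceBasis_subset (R := ℚ) (A := PadicAlgCl p) s
  have hcard : ℵ₀ < #(PadicAlgCl p) := by
    have h1 : 𝔠 ≤ #ℚ_[p] := continuum_le_cardinal_of_nontriviallyNormedField ℚ_[p]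
    have h2 : #ℚ_[p] ≤ #(PadicAlgCl p) :=
      mk_le_of_injective (algebraMap ℚ_[p] (PadicAlgCl p)).injective
    exact lt_of_lt_of_le aleph0_lt_continuum (h1.trans h2)
  have hinf : Infinite u := by
    by_contra hfin
    rw [not_infinite_iff_finite] at hfin
    have h1 := IsAlgClosed.cardinal_le_max_transcendence_basis' (R := ℚ) (K' := PadicAlgCl p)
      (fun x : u => (x : PadicAlgCl p)) hu
    have h2 : max (max #ℚ #u) ℵ₀ ≤ ℵ₀ := by
      refine max_le (max_le ?_ ?_) le_rfl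
      · exact mk_le_aleph0
      · exact mk_le_aleph0
    exact absurd (h1.trans h2) (not_le.2 hcard)
  obtain ⟨e⟩ : Nonempty (Fin d ↪ u) := ⟨(Fin.valEmbedding).trans (Infinite.natEmbedding u)⟩
  refine ⟨fun i => (e i : PadicAlgCl p), fun i => hus (e i).2, ?_⟩
  exact hu.1.comp e e.injective

end Pool.Agent.MPc2b80f
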