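import Pool.Agent.Lib.MP_c2b80f_al.Field
import Pool.Agent.Lib.MP_c2b80f_al.Bounds
import Pool.Agent.Lib.MP_c2b80f_al.PadicPts

namespace Pool.Agent.MPc2b80f

open Polynomial

variable {d : ℕ}

/-- uniform polynomial growth of a finite sum of norms of values -/
theorem sum_growth {ι : Type*} (s : Finset ι) (f : ι → ℂ[X]) : ∃ (C : ℝ) (B : ℕ), 1 ≤ C ∧
    ∀ z : ℂ, 1 + ∑ j ∈ s, ‖(f j).eval z‖ ≤ C * (1 + ‖z‖) ^ B := by
  choose Cj Bj hC hB using fun j => poly_growth (f j)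
  refine ⟨1 + ∑ j ∈ s, Cj j, ∑ j ∈ s, Bj j, ?_, fun z => ?_⟩
  · have := Finset.sum_nonneg fun j (_ : j ∈ s) => hC j
    linarith
  · have h1 : 1 ≤ 1 + ‖z‖ := by linarith [norm_nonneg z]
    have h2 : (1 : ℝ) ≤ (1 + ‖z‖) ^ (∑ j ∈ s, Bj j) := one_le_pow₀ h1
    rw [add_mul, one_mul, Finset.sum_mul]
    refine add_le_add h2 (Finset.sum_le_sum fun j hj => ?_)
    refine (hB j z).trans (mul_le_mul_of_nonneg_left ?_ (hC j))
    exact pow_le_pow_right₀ h1 (Finset.single_le_sum (fun i _ => Nat.zero_le _) hj)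

theorem algebraMap_rat_padic {p : ℕ} [Fact p.Prime] (q : ℚ) :
    algebraMap ℚ (PadicAlgCl p) q = algebraMap ℚ_[p] (PadicAlgCl p) (q : ℚ_[p]) := by
  simp

theorem norm_rat_padic {p : ℕ} [Fact p.Prime] (q : ℚ) :
    ‖algebraMap ℚ (PadicAlgCl p) q‖ = ‖(q : ℚ_[p])‖ := by
  rw [algebraMap_rat_padic]
  exact PadicAlgCl.norm_extends p _

theorem aeval_unit_ball {p : ℕ} [Fact p.Prime] {y : Fin d → PadicAlgCl p} (hy : ∀ i, ‖y i‖ ≤ 1)
    (c : MvPolynomial (Fin d) ℚ) (hc : ∀ m ∈ c.support, ¬ p ∣ (c.coeff m).den) :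
    ‖(MvPolynomial.aeval y : MvPolynomial (Fin d) ℚ →ₐ[ℚ] PadicAlgCl p) c‖ ≤ 1 := by
  rw [MvPolynomial.aeval_def, MvPolynomial.eval₂_eq]
  refine nonarch_sum_le (PadicAlgCl.isNonarchimedean p) _ _ zero_le_one fun m hm => ?_
  rw [norm_mul, norm_prod]
  have h1 : ‖algebraMap ℚ (PadicAlgCl p) (c.coeff m)‖ ≤ 1 := by
    rw [norm_rat_padic]
    exact Padic.norm_rat_le_one (hc m hm)
  have h2 : ∏ i ∈ m.support, ‖y i ^ m i‖ ≤ 1 := by
    refine Finset.prod_le_one (fun i _ => norm_nonneg _) fun i _ => ?_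
    rw [norm_pow]
    exact pow_le_one₀ (norm_nonneg _) (hy i)
  calc ‖algebraMap ℚ (PadicAlgCl p) (c.coeff m)‖ * ∏ i ∈ m.support, ‖y i ^ m i‖
      ≤ 1 * 1 := mul_le_mul h1 h2 (Finset.prod_nonneg fun i _ => norm_nonneg _) zero_le_one
    _ = 1 := one_mul 1

theorem le_one_on_closure {K : Subfield ℂ} {N : ℂ → ℝ} (hN : AbsOn K N) (hU : Ultra K N)
    {A₀ : Finset ℂ} (hA : ∀ a ∈ A₀, a ∈ K) (h1 : ∀ a ∈ A₀, N a ≤ 1) {t : ℂ}
    (ht : t ∈ Subring.closure (A₀ : Set ℂ)) : t ∈ K ∧ N t ≤ 1 := by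
  induction ht using Subring.closure_induction with
  | mem a ha => exact ⟨hA a ha, h1 a ha⟩
  | zero => exact ⟨K.zero_mem, by rw [hN.zero]; exact zero_le_one⟩
  | one => exact ⟨K.one_mem, hN.one.le⟩
  | add a b _ _ iha ihb =>
    exact ⟨K.add_mem iha.1 ihb.1, (hU a iha.1 b ihb.1).trans (max_le iha.2 ihb.2)⟩
  | neg a _ iha => exact ⟨K.neg_mem iha.1, by rw [hN.neg iha.1]; exact iha.2⟩
  | mul a b _ _ iha ihb =>
    refine ⟨K.mul_mem iha.1 ihb.1, ?_⟩
    rw [hN.mul a iha.1 b ihb.1]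
    exact mul_le_one₀ iha.2 (hN.nonneg _) ihb.2

theorem norm_ratCast_padic {p : ℕ} [Fact p.Prime] (q : ℚ)
    (h : ‖algebraMap ℚ (PadicAlgCl p) q‖ < 2) : ¬ p ∣ q.den := by
  rw [norm_rat_padic] at h
  intro hdvd
  have hp2 : (2 : ℝ) ≤ p := by exact_mod_cast (Fact.out : p.Prime).two_le
  have h1 : ‖(q : ℚ_[p])‖ ≤ 1 := by
    have h2 := (Padic.norm_le_pow_iff_norm_lt_pow_add_one (p := p) (q : ℚ_[p]) 0).2
    simp only [zpow_zero, zero_add, zpow_one] at h2
    exact h2 (lt_of_lt_of_le h hp2)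
  have h3 := PadicInt.isUnit_iff.1 (PadicInt.isUnit_den q h1)
  rw [PadicInt.norm_def] at h3
  push_cast at h3
  have h4 := (Padic.norm_natCast_lt_one_iff (p := p) (n := q.den)).2 hdvd
  linarith

/-- A finite set of complex numbers: roots of monic polynomials of bounded degree with bounded
integer coefficients. -/
theorem finite_roots (D M : ℕ) : {t : ℂ | ∃ f : ℂ[X], f.Monic ∧ f.natDegree ≤ D ∧
    (∀ j, ∃ n : ℤ, |n| ≤ M ∧ f.coeff j = n) ∧ f.eval t = 0}.Finite := by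
  classical
  let F : (Fin (D + 1) → Finset.Icc (-(M : ℤ)) M) → ℂ[X] := fun n =>
    ∑ j : Fin (D + 1), C (((n j : ℤ) : ℂ)) * X ^ (j : ℕ)
  have hsub : {t : ℂ | ∃ f : ℂ[X], f.Monic ∧ f.natDegree ≤ D ∧
    (∀ j, ∃ n : ℤ, |n| ≤ M ∧ f.coeff j = n) ∧ f.eval t = 0} ⊆
      ⋃ n, ((F n).roots.toFinset : Set ℂ) := by
    rintro t ⟨f, hf, hD, hc, h0⟩
    choose n hn hn2 using hc
    have hnI : ∀ j : Fin (D + 1), n j ∈ Finset.Icc (-(M : ℤ)) M := fun j =>
      Finset.mem_Icc.2 (abs_le.1 (hn j))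
    have hF : F (fun j => ⟨n j, hnI j⟩) = f := by
      have h1 : f = ∑ j ∈ Finset.range (D + 1), C (f.coeff j) * X ^ j := by
        conv_lhs => rw [f.as_sum_range' (D + 1) (by omega)]
        simp_rw [← C_mul_X_pow_eq_monomial]
      rw [h1, Finset.sum_range]
      refine Finset.sum_congr rfl fun j _ => ?_
      have h2 : (∑ j ∈ Finset.range (D + 1), C (f.coeff j) * X ^ j) = f := h1.symm
      simp only
      rw [hn2]
    rw [Set.mem_iUnion]
    refine ⟨fun j => ⟨n j, hnI j⟩, ?_⟩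
    rw [hF, Finset.mem_coe, Multiset.mem_toFinset, mem_roots hf.ne_zero]
    exact h0
  exact (Set.finite_iUnion fun n => Finset.finite_toSet _).subset hsub

theorem northcott (A₀ : Finset ℂ) : ∃ K : Subfield ℂ, (∀ a ∈ A₀, a ∈ K) ∧ EigClosed K ∧
    ∀ C₀ : ℝ, 0 ≤ C₀ → ∃ δ > 0, {t : ℂ | t ∈ Subring.closure (A₀ : Set ℂ) ∧
      (∀ N, AbsOn K N → N t ≤ 2 * Real.exp (δ * (C₀ * Real.log (1 + wt A₀ N)))) ∧
      (∀ N, AbsOn K N → Ultra K N →
        N t ≤ Real.exp (δ * (C₀ * Real.log (1 + wt A₀ N))))}.Finite := by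
  classical
  obtain ⟨d, x, K, D, P, hx, hA, hE, hP⟩ := setup A₀
  refine ⟨K, hA, hE, fun C₀ hC₀ => ?_⟩
  have hAcl : ∀ a ∈ A₀, a ∈ Subring.closure (A₀ : Set ℂ) := fun a ha =>
    Subring.subset_closure ha
  -- archimedean growth of the generators
  have hgr : ∀ a : ℂ, ∃ (C : ℝ) (B : ℕ), 1 ≤ C ∧ ∀ z : ℂ,
      1 + ∑ j ∈ Finset.range (P a).natDegree,
        ‖(scalePoly x ((P a).coeff j)).eval z‖ ≤ C * (1 + ‖z‖) ^ B :=
    fun a => sum_growth _ _
  choose Ca Ba hCa hCaB using hgr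
  set C1 : ℝ := ∑ a ∈ A₀, Ca a with hC1
  set B1 : ℕ := ∑ a ∈ A₀, Ba a with hB1
  have hC1a : ∀ a ∈ A₀, Ca a ≤ C1 := fun a ha =>
    Finset.single_le_sum (f := Ca) (fun i _ => by linarith [hCa i]) ha
  have hB1a : ∀ a ∈ A₀, Ba a ≤ B1 := fun a ha =>
    Finset.single_le_sum (f := Ba) (fun i _ => Nat.zero_le _) ha
  have hC10 : 0 ≤ C1 := Finset.sum_nonneg fun i _ => by linarith [hCa i]
  set C2 : ℝ := 3 + 4 * (A₀.card * C1) with hC2
  have hC21 : 1 ≤ C2 := by
    have : (0 : ℝ) ≤ A₀.card * C1 := by positivity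
    linarith
  -- p-adic points
  have hpad : ∀ p : ℕ, ∃ Wp : ℝ, 0 ≤ Wp ∧ ∀ (hp : Fact p.Prime),
      ∃ y : Fin d → PadicAlgCl p, (∀ i, ‖y i‖ ≤ 1) ∧
        Function.Injective (MvPolynomial.aeval y : MvPolynomial (Fin d) ℚ →ₐ[ℚ] PadicAlgCl p) ∧
        ∀ a ∈ A₀, ∀ s : PadicAlgCl p, (P a).eval₂ (MvPolynomial.aeval y :
          MvPolynomial (Fin d) ℚ →ₐ[ℚ] PadicAlgCl p).toRingHom s = 0 → ‖s‖ ≤ Wp := by
    intro p
    by_cases hp : p.Prime
    · haveI : Fact p.Prime := ⟨hp⟩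
      obtain ⟨y, hy1, hy2⟩ := exists_padic p d
      refine ⟨∑ a ∈ A₀, (1 + ∑ j ∈ Finset.range (P a).natDegree,
        ‖(MvPolynomial.aeval y : MvPolynomial (Fin d) ℚ →ₐ[ℚ] PadicAlgCl p).toRingHom
          ((P a).coeff j)‖), ?_, fun _ => ⟨y, hy1, hy2, fun a ha s hs => ?_⟩⟩
      · exact Finset.sum_nonneg fun a _ => by positivity
      · refine (root_bound (hP a (hAcl a ha)).1 _ hs).trans ?_
        exact Finset.single_le_sum (f := fun a => (1 + ∑ j ∈ Finset.range (P a).natDegree,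
          ‖(MvPolynomial.aeval y : MvPolynomial (Fin d) ℚ →ₐ[ℚ] PadicAlgCl p).toRingHom
          ((P a).coeff j)‖)) (fun a _ => by positivity) ha
    · exact ⟨0, le_rfl, fun h => absurd h.out hp⟩
  choose Wp hWp0 hWp using hpad
  -- the bad primes
  set m₀ : ℕ := ∏ a ∈ A₀, ∏ j ∈ Finset.range ((P a).natDegree + 1),
    ∏ m ∈ ((P a).coeff j).support, (((P a).coeff j).coeff m).den with hm₀
  have hm₀0 : m₀ ≠ 0 := by
    rw [hm₀, Finset.prod_ne_zero_iff]
    intro a _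
    rw [Finset.prod_ne_zero_iff]
    intro j _
    rw [Finset.prod_ne_zero_iff]
    intro m _
    exact Rat.den_ne_zero _
  -- the constant
  set E1 : ℝ := C₀ * Real.log C2 with hE1
  set E2 : ℝ := C₀ * B1 * D with hE2
  set E3 : ℕ → ℝ := fun p => C₀ * Real.log (1 + (2 + 4 * (A₀.card * Wp p))) * D with hE3
  have hE1n : 0 ≤ E1 := mul_nonneg hC₀ (Real.log_nonneg hC21)
  have hE2n : 0 ≤ E2 := by positivity
  have hlogp : ∀ p, 0 ≤ Real.log (1 + (2 + 4 * (A₀.card * Wp p))) := fun p => by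
    refine Real.log_nonneg ?_
    have : (0 : ℝ) ≤ A₀.card * Wp p := mul_nonneg (Nat.cast_nonneg _) (hWp0 p)
    linarith
  have hE3n : ∀ p, 0 ≤ E3 p := fun p =>
    mul_nonneg (mul_nonneg hC₀ (hlogp p)) (Nat.cast_nonneg _)
  set E : ℝ := E1 + E2 + ∑ p ∈ m₀.primeFactors, E3 p with hEdef
  have hE3s : 0 ≤ ∑ p ∈ m₀.primeFactors, E3 p := Finset.sum_nonneg fun p _ => hE3n p
  have hEn : 0 ≤ E := by positivity
  set δ : ℝ := 1 / (2 * (E + 1)) with hδ
  have hδ0 : 0 < δ := by positivity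
  have hδE : ∀ z : ℝ, z ≤ E → δ * z ≤ 1 / 2 := by
    intro z hz
    rw [hδ, div_mul_eq_mul_div, one_mul, div_le_div_iff₀ (by positivity) (by norm_num)]
    linarith
  refine ⟨δ, hδ0, ?_⟩
  set C3 : ℝ := (2 * Real.exp 1) ^ D * (D.choose (D / 2)) with hC3
  have hC30 : 0 ≤ C3 := by positivity
  obtain ⟨M, hM⟩ := exists_nat_ge (C3 * 2 ^ (1 / 2 : ℝ))
  refine (finite_roots D M).subset ?_
  rintro t ⟨ht, harch, hultra⟩
  obtain ⟨hmon, hdeg, hroot, hext⟩ := hP t ht
  -- archimedean bound of the coefficients along the scaling line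
  have hcoef : ∀ j, ∀ z ∈ {z : ℂ | Function.Injective (MvPolynomial.aeval (fun i => x i * z) :
      MvPolynomial (Fin d) ℚ →ₐ[ℚ] ℂ)},
      ‖(scalePoly x ((P t).coeff j)).eval z‖ ≤ C3 * (1 + ‖z‖) ^ (1 / 2 : ℝ) := by
    intro j z hz
    have hz1 : 1 ≤ 1 + ‖z‖ := by linarith [norm_nonneg z]
    have hz0 : 0 < 1 + ‖z‖ := by linarith
    set Bz : ℝ := 2 * (Real.exp 1 * (1 + ‖z‖) ^ (δ * (C₀ * B1))) with hBz
    have he1 : 1 ≤ Real.exp 1 := Real.one_le_exp zero_le_one
    have hp1 : 1 ≤ (1 + ‖z‖) ^ (δ * (C₀ * B1)) := Real.one_le_rpow hz1 (by positivity)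
    have hBz1 : 1 ≤ Bz := by nlinarith
    have hb := coeff_bound_arch hBz1 hmon (MvPolynomial.aeval (fun i => x i * z) :
      MvPolynomial (Fin d) ℚ →ₐ[ℚ] ℂ).toRingHom D hdeg (fun r hr => ?_) j
    · rw [eval_scalePoly]
      refine hb.trans ?_
      have h1 : Bz ^ D = (2 * Real.exp 1) ^ D * ((1 + ‖z‖) ^ (δ * (C₀ * B1))) ^ D := by
        rw [hBz, ← mul_assoc, mul_pow]
      have h2 : ((1 + ‖z‖) ^ (δ * (C₀ * B1))) ^ D ≤ (1 + ‖z‖) ^ (1 / 2 : ℝ) := by
        rw [← Real.rpow_natCast, ← Real.rpow_mul hz0.le]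
        refine Real.rpow_le_rpow_of_exponent_le hz1 ?_
        have := hδE E2 (by linarith)
        rw [hE2] at this
        linarith [this, mul_assoc δ (C₀ * B1) (D : ℝ)]
      rw [h1, hC3]
      calc (2 * Real.exp 1) ^ D * ((1 + ‖z‖) ^ (δ * (C₀ * B1))) ^ D * (D.choose (D / 2) : ℝ)
          ≤ (2 * Real.exp 1) ^ D * (1 + ‖z‖) ^ (1 / 2 : ℝ) * (D.choose (D / 2) : ℝ) := by
            gcongr
        _ = _ := by ring
    · obtain ⟨N, hN, -, hNt, hNa⟩ := hext ℂ (fun i => x i * z) hz r hr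
      rw [← hNt]
      refine (harch N hN).trans ?_
      rw [hBz]
      refine mul_le_mul_of_nonneg_left ?_ (by norm_num)
      have hNa1 : ∀ a ∈ A₀, N a ≤ C1 * (1 + ‖z‖) ^ B1 := by
        intro a ha
        obtain ⟨s, hs1, hs2⟩ := hNa a ha
        rw [hs1]
        refine (root_bound (hP a (hAcl a ha)).1 _ hs2).trans ?_
        have h3 := hCaB a z
        have h4 : 1 + ∑ j ∈ Finset.range (P a).natDegree,
            ‖(MvPolynomial.aeval (fun i => x i * z) : MvPolynomial (Fin d) ℚ →ₐ[ℚ] ℂ).toRingHom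
              ((P a).coeff j)‖ = 1 + ∑ j ∈ Finset.range (P a).natDegree,
            ‖(scalePoly x ((P a).coeff j)).eval z‖ := by
          congr 1
          refine Finset.sum_congr rfl fun j _ => ?_
          rw [eval_scalePoly]
          rfl
        rw [h4]
        refine h3.trans ?_
        exact mul_le_mul (hC1a a ha) (pow_le_pow_right₀ hz1 (hB1a a ha)) (by positivity) hC10
      have hwt : 1 + wt A₀ N ≤ C2 * (1 + ‖z‖) ^ B1 := by
        rw [wt]
        have h5 : ∑ a ∈ A₀, N a ≤ A₀.card * (C1 * (1 + ‖z‖) ^ B1) := by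
          have := Finset.sum_le_card_nsmul A₀ N _ hNa1
          rwa [nsmul_eq_mul] at this
        have h6 : (1 : ℝ) ≤ (1 + ‖z‖) ^ B1 := one_le_pow₀ hz1
        rw [hC2, add_mul]
        nlinarith
      have hwt0 : 0 < 1 + wt A₀ N := by
        rw [wt]
        have := Finset.sum_nonneg fun a (_ : a ∈ A₀) => hN.nonneg a
        linarith
      have hlog : Real.log (1 + wt A₀ N) ≤ Real.log C2 + B1 * Real.log (1 + ‖z‖) := by
        refine (Real.log_le_log hwt0 hwt).trans (le_of_eq ?_)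
        rw [Real.log_mul (by linarith) (by positivity), Real.log_pow]
      calc Real.exp (δ * (C₀ * Real.log (1 + wt A₀ N)))
          ≤ Real.exp (δ * (C₀ * (Real.log C2 + B1 * Real.log (1 + ‖z‖)))) := by
            refine Real.exp_le_exp.2 ?_
            exact mul_le_mul_of_nonneg_left (mul_le_mul_of_nonneg_left hlog hC₀) hδ0.le
        _ = Real.exp (δ * E1) * (1 + ‖z‖) ^ (δ * (C₀ * B1)) := by
            rw [Real.rpow_def_of_pos hz0, ← Real.exp_add, hE1]
            congr 1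
            ring
        _ ≤ Real.exp 1 * (1 + ‖z‖) ^ (δ * (C₀ * B1)) := by
            refine mul_le_mul_of_nonneg_right (Real.exp_le_exp.2 ?_) (by positivity)
            have := hδE E1 (by linarith)
            linarith
  -- hence the coefficients are rational constants
  have hconst : ∀ j, (P t).coeff j =
      MvPolynomial.C (MvPolynomial.constantCoeff ((P t).coeff j)) := fun j =>
    const_of_scale x hx _ (const_of_growth _ (countable_bad x hx) (hcoef j))
  set q : ℕ → ℚ := fun j => MvPolynomial.constantCoeff ((P t).coeff j) with hq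
  -- the rational constants are integers
  have hden : ∀ j, (q j).den = 1 := by
    intro j
    by_contra hne
    obtain ⟨p, hp, hpd⟩ := Nat.exists_prime_and_dvd hne
    haveI : Fact p.Prime := ⟨hp⟩
    obtain ⟨y, hy1, hy2, hy3⟩ := hWp p ⟨hp⟩
    have hval : ‖(MvPolynomial.aeval y : MvPolynomial (Fin d) ℚ →ₐ[ℚ] PadicAlgCl p).toRingHom
        ((P t).coeff j)‖ = ‖algebraMap ℚ (PadicAlgCl p) (q j)‖ := by
      rw [hconst j]
      congr 1
      exact MvPolynomial.aeval_C _ _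
    refine norm_ratCast_padic (p := p) (q j) ?_ hpd
    rw [← hval]
    by_cases hbad : p ∈ m₀.primeFactors
    · -- bad prime
      set θ : ℝ := δ * (C₀ * Real.log (1 + (2 + 4 * (A₀.card * Wp p)))) with hθ
      have hθ0 : 0 ≤ θ := mul_nonneg hδ0.le (mul_nonneg hC₀ (hlogp p))
      have hb := coeff_bound_ultra (PadicAlgCl.isNonarchimedean p) (Real.one_le_exp hθ0) hmon
        (MvPolynomial.aeval y : MvPolynomial (Fin d) ℚ →ₐ[ℚ] PadicAlgCl p).toRingHom D hdeg
        (fun r hr => ?_) j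
      · refine lt_of_le_of_lt hb ?_
        rw [← Real.exp_nat_mul]
        have h1 : (D : ℝ) * θ ≤ 1 / 2 := by
          have h2 : E3 p ≤ E := by
            have := Finset.single_le_sum (f := E3) (fun i _ => hE3n i) hbad
            linarith
          have h3 := hδE (E3 p) h2
          rw [hE3] at h3
          rw [hθ]
          calc (D : ℝ) * (δ * (C₀ * Real.log (1 + (2 + 4 * (A₀.card * Wp p)))))
              = δ * (C₀ * Real.log (1 + (2 + 4 * (A₀.card * Wp p))) * D) := by ring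
            _ ≤ 1 / 2 := h3
        have h4 : Real.exp (D * θ) ≤ Real.exp (1 / 2) := Real.exp_le_exp.2 h1
        refine lt_of_le_of_lt h4 ?_
        have h5 : Real.exp (1 / 2) * Real.exp (1 / 2) = Real.exp 1 := by
          rw [← Real.exp_add]
          norm_num
        have h6 := Real.exp_one_lt_d9
        have h7 := Real.exp_pos (1 / 2)
        nlinarith
      · obtain ⟨N, hN, hNU, hNt, hNa⟩ := hext (PadicAlgCl p) y hy2 r hr
        rw [← hNt]
        refine (hultra N hN (hNU (PadicAlgCl.isNonarchimedean p))).trans ?_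
        refine Real.exp_le_exp.2 ?_
        rw [hθ]
        refine mul_le_mul_of_nonneg_left (mul_le_mul_of_nonneg_left ?_ hC₀) hδ0.le
        have hwt0 : 0 < 1 + wt A₀ N := by
          rw [wt]
          have := Finset.sum_nonneg fun a (_ : a ∈ A₀) => hN.nonneg a
          linarith
        refine Real.log_le_log hwt0 ?_
        rw [wt]
        have h5 : ∑ a ∈ A₀, N a ≤ A₀.card * Wp p := by
          have := Finset.sum_le_card_nsmul A₀ N (Wp p) (fun a ha => by
            obtain ⟨s, hs1, hs2⟩ := hNa a ha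
            rw [hs1]
            exact hy3 a ha s hs2)
          rwa [nsmul_eq_mul] at this
        linarith
    · -- good prime
      have hgood : ∀ a ∈ A₀, ∀ j, ‖(MvPolynomial.aeval y : MvPolynomial (Fin d) ℚ →ₐ[ℚ]
          PadicAlgCl p).toRingHom ((P a).coeff j)‖ ≤ 1 := by
        intro a ha j
        refine aeval_unit_ball hy1 _ fun m hm hdvd => hbad ?_
        rw [Nat.mem_primeFactors]
        refine ⟨hp, ?_, hm₀0⟩
        by_cases hj : j ∈ Finset.range ((P a).natDegree + 1)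
        · refine hdvd.trans ?_
          rw [hm₀]
          refine dvd_trans ?_ (Finset.dvd_prod_of_mem _ ha)
          refine dvd_trans ?_ (Finset.dvd_prod_of_mem _ hj)
          exact Finset.dvd_prod_of_mem (fun m => (((P a).coeff j).coeff m).den) hm
        · exfalso
          rw [Finset.mem_range, not_lt] at hj
          have h0 : (P a).coeff j = 0 := coeff_eq_zero_of_natDegree_lt (by omega)
          rw [h0] at hm
          simp at hm
      have hb := coeff_bound_ultra (PadicAlgCl.isNonarchimedean p) le_rfl hmon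
        (MvPolynomial.aeval y : MvPolynomial (Fin d) ℚ →ₐ[ℚ] PadicAlgCl p).toRingHom D hdeg
        (fun r hr => ?_) j
      · rw [one_pow] at hb
        linarith
      · obtain ⟨N, hN, hNU, hNt, hNa⟩ := hext (PadicAlgCl p) y hy2 r hr
        rw [← hNt]
        refine (le_one_on_closure hN (hNU (PadicAlgCl.isNonarchimedean p)) hA ?_ ht).2
        intro a ha
        obtain ⟨s, hs1, hs2⟩ := hNa a ha
        rw [hs1]
        exact root_bound_ultra (PadicAlgCl.isNonarchimedean p) (hP a (hAcl a ha)).1 _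
          (hgood a ha) hs2
  -- conclusion
  have hmap : ∀ j, ((P t).map (MvPolynomial.aeval x :
      MvPolynomial (Fin d) ℚ →ₐ[ℚ] ℂ).toRingHom).coeff j = ((q j : ℚ) : ℂ) := by
    intro j
    rw [coeff_map, hconst j]
    exact MvPolynomial.aeval_C _ _
  refine ⟨(P t).map (MvPolynomial.aeval x : MvPolynomial (Fin d) ℚ →ₐ[ℚ] ℂ).toRingHom,
    hmon.map _, ?_, fun j => ?_, ?_⟩
  · rw [hmon.natDegree_map]
    exact hdeg
  · have hqn : (q j : ℚ) = ((q j).num : ℚ) := by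
      conv_lhs => rw [← Rat.num_div_den (q j), hden j]
      simp
    refine ⟨(q j).num, ?_, ?_⟩
    · have h1 := hcoef j 1 (by
        show Function.Injective _
        simpa using hx)
      rw [eval_scalePoly] at h1
      have h2 : (MvPolynomial.aeval (fun i => x i * 1) : MvPolynomial (Fin d) ℚ →ₐ[ℚ] ℂ)
          ((P t).coeff j) = (((q j).num : ℤ) : ℂ) := by
        rw [hconst j, MvPolynomial.aeval_C]
        show ((q j : ℚ) : ℂ) = _
        rw [hqn]
        simp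
      rw [h2] at h1
      have h3 : ‖(((q j).num : ℤ) : ℂ)‖ = ((|(q j).num| : ℤ) : ℝ) := by
        rw [Complex.norm_intCast, Int.cast_abs]
      rw [h3] at h1
      have h4 : (1 + ‖(1 : ℂ)‖) = (2 : ℝ) := by norm_num
      rw [h4] at h1
      have h5 := h1.trans hM
      exact_mod_cast h5
    · rw [hmap j, hqn]
      simp
  · rw [eval_map]
    exact hroot

end Pool.Agent.MPc2b80f
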