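import Pool.Agent.Lib.MP_c2b80f_al.Words

namespace Pool.Agent.MPc2b80f

open Matrix Filter

variable {K : Subfield ℂ} {N : ℂ → ℝ}

theorem log_three : (1 : ℝ) ≤ Real.log 3 := by
  rw [Real.le_log_iff_exp_le (by norm_num)]
  have := Real.exp_one_lt_d9
  linarith

theorem log_two_ge : (1 / 2 : ℝ) ≤ Real.log 2 := by
  have := Real.log_two_gt_d9
  linarith

/-- numerical inequality for the cost of a letter -/
theorem cost_ineq {W a : ℝ} (hW : 2 ≤ W) (ha : 0 ≤ a) :
    (2 + a) * W ≤ Real.exp (3 * Real.log (1 + W) * Real.log (2 + a)) := by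
  have h1 : 0 < (2 + a) * W := by positivity
  rw [← Real.log_le_iff_le_exp h1, Real.log_mul (by positivity) (by positivity)]
  have ea : 1 / 2 ≤ Real.log (2 + a) :=
    log_two_ge.trans (Real.log_le_log (by norm_num) (by linarith))
  have eb : 1 ≤ Real.log (1 + W) :=
    log_three.trans (Real.log_le_log (by norm_num) (by linarith))
  have ec : Real.log W ≤ Real.log (1 + W) := Real.log_le_log (by linarith) (by linarith)
  nlinarith [mul_nonneg (sub_nonneg.2 ea) (sub_nonneg.2 eb)]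

theorem coe_npow (g : G2) (n : ℕ) : (g ^ n).1 = g.1 ^ n := Matrix.SpecialLinearGroup.coe_pow g n

theorem parabolic_npow (hN : AbsOn K N) (g : G2) (hg : InK K g.1)
    (ht : g.1.trace = 2 ∨ g.1.trace = -2) (n : ℕ) :
    nsz N (g ^ n).1 ≤ (n + 1) * (nsz N g.1 + 2) := by
  rw [coe_npow]
  rcases ht with ht | ht
  · have := nsz_pow hN g hg K.one_mem K.one_mem (by norm_num) (by rw [ht]; norm_num) le_rfl
      hN.one.le hN.one.le n
    simpa using this
  · have := nsz_pow hN g hg (K.neg_mem K.one_mem) (K.neg_mem K.one_mem) (by norm_num)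
      (by rw [ht]; norm_num) le_rfl hN.neg_one.le hN.neg_one.le n
    simpa using this

theorem InK.npow' {g : G2} (hg : InK K g.1) (n : ℕ) : InK K (g ^ n).1 := by
  rw [coe_npow]
  exact hg.pow n

theorem InK.zpow' {g : G2} (hg : InK K g.1) (n : ℤ) : InK K (g ^ n).1 := by
  cases n with
  | ofNat n => simpa using hg.npow' n
  | negSucc n =>
    rw [zpow_negSucc]
    exact InK.inv (hg.npow' _)

theorem parabolic_zpow (hN : AbsOn K N) (g : G2) (hg : InK K g.1)
    (ht : g.1.trace = 2 ∨ g.1.trace = -2) (n : ℤ) :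
    nsz N (g ^ n).1 ≤ (|(n : ℝ)| + 1) * (nsz N g.1 + 2) := by
  cases n with
  | ofNat n => simpa using parabolic_npow hN g hg ht n
  | negSucc n =>
    rw [zpow_negSucc, nsz_inv hN (hg.npow' _)]
    have := parabolic_npow hN g hg ht (n + 1)
    refine this.trans (le_of_eq ?_)
    congr 1
    rw [Int.cast_negSucc, abs_neg, abs_of_nonneg (by positivity)]

theorem letter_bound (hN : AbsOn K N) (g : G2) (hg : InK K g.1) {W : ℝ}
    (hW : nsz N g.1 + 2 ≤ W) (n : ℤ)
    (h : n = 1 ∨ (g.1.trace = 2 ∨ g.1.trace = -2)) :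
    nsz N (g ^ n).1 ≤ Real.exp (3 * Real.log (1 + W) * Real.log (2 + |(n : ℝ)|)) := by
  have h0 := nsz_nonneg hN g.1
  refine le_trans ?_ (cost_ineq (by linarith) (abs_nonneg _))
  rcases h with h | h
  · subst h
    rw [zpow_one]
    norm_num
    nlinarith
  · refine (parabolic_zpow hN g hg h n).trans ?_
    have := abs_nonneg (n : ℝ)
    nlinarith

theorem word_bound (hN : AbsOn K N) (S U : Finset G2) (hU : ∀ u ∈ U, u.1.trace = 2 ∨ u.1.trace = -2)
    {W : ℝ} (hW : ∀ s, s ∈ S ∨ s ∈ U → InK K s.1 ∧ nsz N s.1 + 2 ≤ W) (L : List (G2 × ℤ))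
    (hL : ∀ x ∈ L, (x.1 ∈ S ∧ x.2 = 1) ∨ x.1 ∈ U) :
    InK K ((L.map fun x : G2 × ℤ => x.1 ^ x.2).prod).1 ∧
    nsz N ((L.map fun x : G2 × ℤ => x.1 ^ x.2).prod).1 ≤
      2 * Real.exp (3 * Real.log (1 + W) * (L.map fun x => Real.log (2 + |(x.2 : ℝ)|)).sum) := by
  induction L with
  | nil =>
    refine ⟨?_, ?_⟩
    · simpa using (InK.one : InK K 1)
    · simp [nsz_one hN]
  | cons x L ih =>
    obtain ⟨i1, i2⟩ := ih fun y hy => hL y (List.mem_cons_of_mem _ hy)
    have hx := hL x List.mem_cons_self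
    have hx1 : x.1 ∈ S ∨ x.1 ∈ U := by
      rcases hx with h | h
      · exact Or.inl h.1
      · exact Or.inr h
    obtain ⟨hk, hw⟩ := hW x.1 hx1
    have hlet : nsz N (x.1 ^ x.2).1 ≤
        Real.exp (3 * Real.log (1 + W) * Real.log (2 + |(x.2 : ℝ)|)) := by
      refine letter_bound hN x.1 hk hw x.2 ?_
      rcases hx with h | h
      · exact Or.inl h.2
      · exact Or.inr (hU _ h)
    have hk' : InK K (x.1 ^ x.2).1 := hk.zpow' _
    simp only [List.map_cons, List.prod_cons, List.sum_cons]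
    rw [Matrix.SpecialLinearGroup.coe_mul]
    refine ⟨hk'.mul i1, (nsz_mul hN hk' i1).trans ?_⟩
    refine (mul_le_mul hlet i2 (nsz_nonneg hN _) (Real.exp_pos _).le).trans (le_of_eq ?_)
    rw [mul_add, Real.exp_add]
    ring

theorem absOn_norm (K : Subfield ℂ) : AbsOn K (fun z => ‖z‖) where
  nonneg := norm_nonneg
  zero := norm_zero
  one := norm_one
  mul a _ b _ := norm_mul a b
  add a _ b _ := norm_add_le a b

theorem size_eq (g : G2) : size g = nsz (fun z => ‖z‖) g.1 := rfl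

theorem one_le_size (g : G2) : 1 ≤ size g := by
  have hd := g.2
  rw [Matrix.det_fin_two] at hd
  have h1 : (1 : ℝ) ≤ ‖g.1 0 0‖ * ‖g.1 1 1‖ + ‖g.1 0 1‖ * ‖g.1 1 0‖ := by
    calc (1 : ℝ) = ‖g.1 0 0 * g.1 1 1 - g.1 0 1 * g.1 1 0‖ := by rw [hd, norm_one]
      _ ≤ ‖g.1 0 0 * g.1 1 1‖ + ‖g.1 0 1 * g.1 1 0‖ := norm_sub_le _ _
      _ = _ := by rw [norm_mul, norm_mul]
  rw [size_eq, nsz_def]
  have a := norm_nonneg (g.1 0 0)
  have b := norm_nonneg (g.1 0 1)
  have c := norm_nonneg (g.1 1 0)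
  have d := norm_nonneg (g.1 1 1)
  nlinarith [mul_nonneg a b, mul_nonneg a c, mul_nonneg b d, mul_nonneg c d]

theorem le_one_of_pow_le {r D : ℝ} {M : ℝ} (hr : 0 ≤ r)
    (h : ∀ n : ℕ, r ^ n ≤ D * ((n : ℝ) + 1) ^ M) : r ≤ 1 := by
  by_contra hlt
  rw [not_le] at hlt
  obtain ⟨m, hm⟩ := exists_nat_ge M
  have hD : 1 ≤ D := by simpa using h 0
  have key : ∀ n : ℕ, 1 ≤ n → 1 ≤ (D * 2 ^ m) * ((n : ℝ) ^ m / r ^ n) := by
    intro n hn
    have hn' : (1 : ℝ) ≤ n := by exact_mod_cast hn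
    have h1 := h n
    have h2 : ((n : ℝ) + 1) ^ M ≤ ((n : ℝ) + 1) ^ (m : ℝ) :=
      Real.rpow_le_rpow_of_exponent_le (by linarith) hm
    rw [Real.rpow_natCast] at h2
    have h3 : ((n : ℝ) + 1) ^ m ≤ (2 * n) ^ m := pow_le_pow_left₀ (by linarith) (by linarith) m
    have hrn : 0 < r ^ n := by positivity
    rw [← mul_div_assoc, le_div_iff₀ hrn, one_mul]
    refine h1.trans ?_
    refine (mul_le_mul_of_nonneg_left (h2.trans h3) (by linarith)).trans (le_of_eq ?_)
    rw [mul_pow]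
    ring
  have ht := (tendsto_pow_const_div_const_pow_of_one_lt m hlt).const_mul (D * 2 ^ m)
  rw [mul_zero] at ht
  have hev := (ht.eventually (gt_mem_nhds (zero_lt_one))).and (eventually_ge_atTop 1)
  obtain ⟨n, hn1, hn2⟩ := hev.exists
  exact absurd hn1 (not_lt.2 (key n hn2))

/-- The set of words with controlled cost. -/
def Cheap (S U : Finset G2) (C : ℝ) (Γ : Subgroup G2) : Prop :=
  (∀ u ∈ U, u.1.trace = 2 ∨ u.1.trace = -2) ∧
    ∀ g ∈ Γ, ∃ L : List (G2 × ℤ),
      (∀ x ∈ L, (x.1 ∈ S ∧ x.2 = 1) ∨ x.1 ∈ U) ∧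
      (L.map fun x => x.1 ^ x.2).prod = g ∧
      (L.map fun x => Real.log (2 + |(x.2 : ℝ)|)).sum ≤ C * (1 + Real.log (size g))

theorem exists_cheap {Γ : Subgroup G2} (h : CheapWords Γ) :
    ∃ (S U : Finset G2) (C : ℝ), 0 ≤ C ∧ Cheap S U C Γ := by
  obtain ⟨S, U, C, hU, h⟩ := h
  refine ⟨S, U, max C 0, le_max_right _ _, hU, fun g hg => ?_⟩
  obtain ⟨L, h1, h2, h3⟩ := h g hg
  refine ⟨L, h1, h2, h3.trans ?_⟩
  have := Real.log_nonneg (one_le_size g)
  exact mul_le_mul_of_nonneg_right (le_max_left _ _) (by linarith)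

theorem cheap_bound (hN : AbsOn K N) {S U : Finset G2} {C : ℝ} {Γ : Subgroup G2}
    (hc : Cheap S U C Γ) {W : ℝ} (hW2 : 2 ≤ W)
    (hW : ∀ s, s ∈ S ∨ s ∈ U → InK K s.1 ∧ nsz N s.1 + 2 ≤ W) {g : G2} (hg : g ∈ Γ) :
    InK K g.1 ∧
      nsz N g.1 ≤ 2 * Real.exp (3 * C * Real.log (1 + W) * (1 + Real.log (size g))) := by
  obtain ⟨L, h1, h2, h3⟩ := hc.2 g hg
  obtain ⟨k1, k2⟩ := word_bound hN S U hc.1 hW L h1
  rw [h2] at k1 k2
  refine ⟨k1, k2.trans ?_⟩
  have hl : 0 ≤ Real.log (1 + W) := Real.log_nonneg (by linarith)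
  refine mul_le_mul_of_nonneg_left (Real.exp_le_exp.2 ?_) (by norm_num)
  calc 3 * Real.log (1 + W) * (L.map fun x => Real.log (2 + |(x.2 : ℝ)|)).sum
      ≤ 3 * Real.log (1 + W) * (C * (1 + Real.log (size g))) :=
        mul_le_mul_of_nonneg_left h3 (by positivity)
    _ = _ := by ring

/-- Spectral bound for elements of a group with cheap words. -/
theorem eig_bound (hN : AbsOn K N) {S U : Finset G2} {C : ℝ} (hC : 0 ≤ C) {Γ : Subgroup G2}
    (hc : Cheap S U C Γ) {W : ℝ} (hW2 : 2 ≤ W)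
    (hW : ∀ s, s ∈ S ∨ s ∈ U → InK K s.1 ∧ nsz N s.1 + 2 ≤ W) {g : G2} (hg : g ∈ Γ)
    {x : ℂ} (hx : x ∈ K) (hx0 : x ≠ 0) (ht : x + x⁻¹ = g.1.trace) {B : ℝ} (hB : 1 ≤ B)
    (hxB : ‖x‖ ≤ B) (hxB' : ‖x⁻¹‖ ≤ B) :
    N x ≤ B ^ (3 * C * Real.log (1 + W)) := by
  set M := 3 * C * Real.log (1 + W) with hM
  have hM0 : 0 ≤ M := by
    have hl : 0 ≤ Real.log (1 + W) := Real.log_nonneg (by linarith)
    positivity
  have hB0 : 0 < B := by linarith
  set b := B ^ M with hb
  have hb1 : 1 ≤ b := Real.one_le_rpow hB hM0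
  have hb0 : 0 < b := by linarith
  set c := size g + 2 with hcdef
  have hc1 : 1 ≤ c := by have := one_le_size g; linarith
  have key : ∀ n : ℕ, (N x / b) ^ n ≤ (3 * Real.exp M * c ^ M) * ((n : ℝ) + 1) ^ M := by
    intro n
    obtain ⟨hk, hbd⟩ := cheap_bound hN hc hW2 hW (Γ.pow_mem hg n)
    have hsz : size (g ^ n) ≤ ((n : ℝ) + 1) * B ^ n * c := by
      rw [size_eq, coe_npow]
      exact nsz_pow (K := (⊤ : Subfield ℂ)) (absOn_norm _) g (fun i j => Subfield.mem_top _)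
        (Subfield.mem_top _) (Subfield.mem_top _) (mul_inv_cancel₀ hx0) ht hB hxB hxB' n
    have hszp : 0 < size (g ^ n) := by have := one_le_size (g ^ n); linarith
    -- trace of the power
    have htr : x ^ n + (x ^ n)⁻¹ = (g ^ n).1.trace := by
      rw [coe_npow]
      cases n with
      | zero => simp [Matrix.trace_fin_two]; norm_num
      | succ n =>
        rw [pow_formula g (mul_inv_cancel₀ hx0) ht n, Matrix.trace_sub, Matrix.trace_smul,
          Matrix.trace_smul, ← ht]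
        clear hk hbd hsz hszp
        have h2 : (1 : Matrix (Fin 2) (Fin 2) ℂ).trace = 2 := by
          simp [Matrix.trace_fin_two]
        rw [h2]
        simp only [smul_eq_mul]
        have hrec : ∀ m : ℕ, cheb x x⁻¹ m * (x - x⁻¹) = x ^ m - (x⁻¹) ^ m := by
          intro m
          induction m with
          | zero => simp [cheb]
          | succ m ih =>
            have e : cheb x x⁻¹ (m + 1) = x * cheb x x⁻¹ m + x⁻¹ ^ m := rfl
            rw [e, add_mul, mul_assoc, ih]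
            ring
        have hx1 : x * x⁻¹ = 1 := mul_inv_cancel₀ hx0
        -- cheb (n+1) * (x + x⁻¹) - 2 * cheb n = x^(n+1) + x⁻¹^(n+1)
        have h3 : ∀ m : ℕ, x ^ (m + 1) + x⁻¹ ^ (m + 1) =
            cheb x x⁻¹ (m + 1) * (x + x⁻¹) - cheb x x⁻¹ m * 2 := by
          intro m
          have e : cheb x x⁻¹ (m + 1) = x * cheb x x⁻¹ m + x⁻¹ ^ m := rfl
          rw [e]
          have h4 := hrec m
          have h5 : x * (cheb x x⁻¹ m * (x - x⁻¹)) = x * (x ^ m - (x⁻¹) ^ m) := by rw [h4]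
          generalize cheb x x⁻¹ m = c at h5 ⊢
          generalize x⁻¹ = y at h5 hx1 ⊢
          linear_combination (-1 : ℂ) * h5 - 2 * c * hx1
        rw [← inv_pow, h3 n]
    have hxn : x ^ n ∈ K := K.pow_mem hx n
    have hxn0 : x ^ n ≠ 0 := pow_ne_zero _ hx0
    have htrK : (g ^ n).1.trace ∈ K := hk.trace
    have htrN : N (g ^ n).1.trace ≤ nsz N (g ^ n).1 := by
      rw [Matrix.trace_fin_two, nsz_def]
      refine (hN.add _ (hk 0 0) _ (hk 1 1)).trans ?_
      have := hN.nonneg ((g ^ n).1 0 1)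
      have := hN.nonneg ((g ^ n).1 1 0)
      linarith
    have hquad : N (x ^ n) ≤ N (g ^ n).1.trace + 1 := by
      have e : x ^ n * x ^ n = (g ^ n).1.trace * x ^ n - 1 := by
        rw [← htr, add_mul, inv_mul_cancel₀ hxn0]
        ring
      have h1 : N (x ^ n) * N (x ^ n) ≤ N (g ^ n).1.trace * N (x ^ n) + 1 := by
        rw [← hN.mul _ hxn _ hxn, e]
        refine (hN.sub (K.mul_mem htrK hxn) K.one_mem).trans ?_
        rw [hN.mul _ htrK _ hxn, hN.one]
      by_contra hlt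
      rw [not_le] at hlt
      have h2 := hN.nonneg (g ^ n).1.trace
      nlinarith
    rw [hN.pow hx] at hquad
    have hexp : Real.exp (M * (1 + Real.log (size (g ^ n)))) ≤
        Real.exp M * c ^ M * ((n : ℝ) + 1) ^ M * b ^ n := by
      have h1 : Real.log (size (g ^ n)) ≤ Real.log (((n : ℝ) + 1) * B ^ n * c) :=
        Real.log_le_log hszp hsz
      have hn1 : (0 : ℝ) < (n : ℝ) + 1 := by positivity
      calc Real.exp (M * (1 + Real.log (size (g ^ n))))
          ≤ Real.exp (M * (1 + Real.log (((n : ℝ) + 1) * B ^ n * c))) :=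
            Real.exp_le_exp.2 (mul_le_mul_of_nonneg_left (by linarith) hM0)
        _ = Real.exp M * (((n : ℝ) + 1) * B ^ n * c) ^ M := by
            rw [Real.rpow_def_of_pos (by positivity), mul_add, Real.exp_add, mul_one,
              mul_comm M (Real.log _)]
        _ = Real.exp M * c ^ M * ((n : ℝ) + 1) ^ M * b ^ n := by
            have hbn : (B ^ n) ^ M = b ^ n := by
              rw [hb, ← Real.rpow_natCast, ← Real.rpow_natCast, ← Real.rpow_mul hB0.le,
                ← Real.rpow_mul hB0.le, mul_comm]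
            rw [Real.mul_rpow (by positivity) (by positivity),
              Real.mul_rpow (by positivity) (by positivity), hbn]
            ring
    have hge1 : 1 ≤ Real.exp M * c ^ M * ((n : ℝ) + 1) ^ M * b ^ n := by
      have e1 : 1 ≤ Real.exp M := Real.one_le_exp hM0
      have e2 : 1 ≤ c ^ M := Real.one_le_rpow hc1 hM0
      have e3 : 1 ≤ ((n : ℝ) + 1) ^ M := Real.one_le_rpow (by
        have := Nat.cast_nonneg (α := ℝ) n; linarith) hM0
      have e4 : 1 ≤ b ^ n := one_le_pow₀ hb1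
      exact one_le_mul_of_one_le_of_one_le (one_le_mul_of_one_le_of_one_le
        (one_le_mul_of_one_le_of_one_le e1 e2) e3) e4
    have hfin : N x ^ n ≤ 3 * (Real.exp M * c ^ M * ((n : ℝ) + 1) ^ M * b ^ n) := by
      have h2 : N x ^ n ≤ 2 * Real.exp (M * (1 + Real.log (size (g ^ n)))) + 1 := by
        linarith
      linarith
    rw [div_pow, div_le_iff₀ (by positivity)]
    linarith
  have h1 := le_one_of_pow_le (div_nonneg (hN.nonneg x) hb0.le) key
  rwa [div_le_one hb0] at h1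

end Pool.Agent.MPc2b80f
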