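import Pool.Agent.Lib.MP_c2b80f_al.Spectral

namespace Pool.Agent.MPc2b80f

open Matrix

variable {K : Subfield ℂ} {N : ℂ → ℝ}

theorem trace_pow {g : G2} {x : ℂ} (hx0 : x ≠ 0) (ht : x + x⁻¹ = g.1.trace) (n : ℕ) :
    x ^ n + (x ^ n)⁻¹ = (g ^ n).1.trace := by
  rw [coe_npow]
  cases n with
  | zero => simp [Matrix.trace_fin_two]; norm_num
  | succ n =>
    rw [pow_formula g (mul_inv_cancel₀ hx0) ht n, Matrix.trace_sub, Matrix.trace_smul,
      Matrix.trace_smul, ← ht]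
    have h2 : (1 : Matrix (Fin 2) (Fin 2) ℂ).trace = 2 := by
      simp [Matrix.trace_fin_two]
    rw [h2]
    simp only [smul_eq_mul]
    have hrec : ∀ m : ℕ, cheb x x⁻¹ m * (x - x⁻¹) = x ^ m - (x⁻¹) ^ m := by
      intro m
      induction m with
      | zero => simp [cheb]
      | succ m ih =>
        have e : cheb x x⁻¹ (m + 1) = x * cheb x x⁻¹ m + x⁻¹ ^ m := rfl
        rw [e, add_mul, mul_assoc, ih]
        ring
    have hx1 : x * x⁻¹ = 1 := mul_inv_cancel₀ hx0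
    have h3 : ∀ m : ℕ, x ^ (m + 1) + x⁻¹ ^ (m + 1) =
        cheb x x⁻¹ (m + 1) * (x + x⁻¹) - cheb x x⁻¹ m * 2 := by
      intro m
      have e : cheb x x⁻¹ (m + 1) = x * cheb x x⁻¹ m + x⁻¹ ^ m := rfl
      rw [e]
      have h4 := hrec m
      have h5 : x * (cheb x x⁻¹ m * (x - x⁻¹)) = x * (x ^ m - (x⁻¹) ^ m) := by rw [h4]
      generalize cheb x x⁻¹ m = c at h5 ⊢
      generalize x⁻¹ = y at h5 hx1 ⊢
      linear_combination (-1 : ℂ) * h5 - 2 * c * hx1
    rw [← inv_pow, h3 n]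

theorem eigenvalue_spec {g : G2} {z : ℂ} (h : IsEigenvalue g z) :
    z ≠ 0 ∧ z + z⁻¹ = g.1.trace := by
  obtain ⟨v, hv, hgv⟩ := h
  have hd := g.2
  rw [Matrix.det_fin_two] at hd
  have e0 : g.1 0 0 * v 0 + g.1 0 1 * v 1 = z * v 0 := by
    have := congrFun hgv 0
    simpa [Matrix.mulVec, dotProduct, Fin.sum_univ_two] using this
  have e1 : g.1 1 0 * v 0 + g.1 1 1 * v 1 = z * v 1 := by
    have := congrFun hgv 1
    simpa [Matrix.mulVec, dotProduct, Fin.sum_univ_two] using this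
  have hq : z * z - (g.1 0 0 + g.1 1 1) * z + 1 = 0 := by
    by_cases h0 : v 0 = 0
    · have h1 : v 1 ≠ 0 := by
        intro h1
        apply hv
        ext i
        fin_cases i
        · exact h0
        · exact h1
      apply mul_left_cancel₀ h1
      linear_combination (-1 : ℂ) * (g.1 1 0) * e0 + (g.1 0 0 - z) * e1 + (-1 : ℂ) * v 1 * hd
    · apply mul_left_cancel₀ h0
      linear_combination (g.1 1 1 - z) * e0 + (-1 : ℂ) * (g.1 0 1) * e1 + (-1 : ℂ) * v 0 * hd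
  have hz : z ≠ 0 := by
    rintro rfl
    simp at hq
  refine ⟨hz, ?_⟩
  rw [Matrix.trace_fin_two]
  field_simp
  linear_combination hq

theorem root_cases {x z : ℂ} (hx : x ≠ 0) (hz : z ≠ 0) (h : z + z⁻¹ = x + x⁻¹) :
    z = x ∨ z = x⁻¹ := by
  have h1 : (z - x) * (z - x⁻¹) = 0 := by
    have e1 : z * z⁻¹ = 1 := mul_inv_cancel₀ hz
    have e2 : x * x⁻¹ = 1 := mul_inv_cancel₀ hx
    linear_combination z * h - e1 + e2
  rcases mul_eq_zero.1 h1 with h2 | h2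
  · exact Or.inl (sub_eq_zero.1 h2)
  · exact Or.inr (sub_eq_zero.1 h2)

theorem exists_eigenvector {g : G2} {z : ℂ} (hz : z ≠ 0) (ht : z + z⁻¹ = g.1.trace) :
    ∃ v : Fin 2 → ℂ, v ≠ 0 ∧ g.1 *ᵥ v = z • v := by
  have hd := g.2
  rw [Matrix.det_fin_two] at hd
  have hdet : (g.1 - z • (1 : Matrix (Fin 2) (Fin 2) ℂ)).det = 0 := by
    rw [Matrix.det_fin_two]
    rw [Matrix.trace_fin_two] at ht
    have e1 : z * z⁻¹ = 1 := mul_inv_cancel₀ hz
    simp
    linear_combination hd + z * ht - e1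
  obtain ⟨v, hv, h⟩ := Matrix.exists_mulVec_eq_zero_iff.2 hdet
  refine ⟨v, hv, ?_⟩
  rw [Matrix.sub_mulVec, sub_eq_zero] at h
  rw [h]
  simp [Matrix.smul_mulVec]

theorem semisimple_of_trace {g : G2} (h1 : g.1.trace ≠ 2) (h2 : g.1.trace ≠ -2) :
    IsSemisimpleElt g := by
  obtain ⟨x, hx⟩ := IsAlgClosed.exists_pow_nat_eq (g.1.trace ^ 2 / 4 - 1) (n := 2) (by norm_num)
  set t := g.1.trace with htdef
  have hxp : (t / 2 + x) * (t / 2 - x) = 1 := by linear_combination (-1 : ℂ) * hx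
  have hx0 : x ≠ 0 := by
    rintro rfl
    have h3 : (t - 2) * (t + 2) = 0 := by linear_combination (-4 : ℂ) * hx
    rcases mul_eq_zero.1 h3 with h4 | h4
    · exact h1 (sub_eq_zero.1 h4)
    · exact h2 (eq_neg_of_add_eq_zero_left h4)
  have ha0 : t / 2 + x ≠ 0 := left_ne_zero_of_mul_eq_one hxp
  have hb0 : t / 2 - x ≠ 0 := right_ne_zero_of_mul_eq_one hxp
  have hai : (t / 2 + x)⁻¹ = t / 2 - x := inv_eq_of_mul_eq_one_right hxp
  have hbi : (t / 2 - x)⁻¹ = t / 2 + x := inv_eq_of_mul_eq_one_left hxp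
  obtain ⟨v, hv, hgv⟩ := exists_eigenvector (g := g) ha0 (by rw [hai]; ring)
  obtain ⟨w, hw, hgw⟩ := exists_eigenvector (g := g) hb0 (by rw [hbi]; ring)
  refine ⟨![v, w], ![t / 2 + x, t / 2 - x], ?_, ?_⟩
  · rw [LinearIndependent.pair_iff]
    intro a b hab
    have h3 : g.1 *ᵥ (a • v + b • w) = 0 := by rw [hab, Matrix.mulVec_zero]
    rw [Matrix.mulVec_add, Matrix.mulVec_smul, Matrix.mulVec_smul, hgv, hgw] at h3
    have h4 : (a * (2 * x)) • v = 0 := by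
      have : (a * (2 * x)) • v = (a • (t / 2 + x) • v + b • (t / 2 - x) • w) -
          (t / 2 - x) • (a • v + b • w) := by
        rw [smul_add, smul_smul, smul_smul, smul_smul, smul_smul]
        have e : (a * (2 * x)) = a * (t / 2 + x) - (t / 2 - x) * a := by ring
        rw [e, sub_smul, mul_comm b (t / 2 - x)]
        abel
      rw [this, h3, hab, smul_zero, sub_zero]
    have ha : a = 0 := by
      rcases smul_eq_zero.1 h4 with h5 | h5
      · rcases mul_eq_zero.1 h5 with h6 | h6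
        · exact h6
        · exact absurd h6 (mul_ne_zero two_ne_zero hx0)
      · exact absurd h5 hv
    refine ⟨ha, ?_⟩
    rw [ha, zero_smul, zero_add] at hab
    rcases smul_eq_zero.1 hab with h5 | h5
    · exact h5
    · exact absurd h5 hw
  · intro i
    fin_cases i
    · exact hgv
    · exact hgw

/-- `K` contains the eigenvalues of matrices with entries in `K`. -/
def EigClosed (K : Subfield ℂ) : Prop :=
  ∀ t ∈ K, ∀ z : ℂ, z ≠ 0 → z + z⁻¹ = t → z ∈ K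

theorem one_le_max {x : ℂ} (hx : x ≠ 0) : 1 ≤ max ‖x‖ ‖x⁻¹‖ := by
  rcases le_total 1 ‖x‖ with h | h
  · exact h.trans (le_max_left _ _)
  · refine le_trans ?_ (le_max_right _ _)
    rw [norm_inv]
    exact (one_le_inv₀ (norm_pos_iff.2 hx)).2 h

theorem max_pow' {a b : ℝ} (ha : 0 ≤ a) (hb : 0 ≤ b) (n : ℕ) :
    (max a b) ^ n = max (a ^ n) (b ^ n) := by
  rcases le_total a b with h | h
  · rw [max_eq_right h, max_eq_right (pow_le_pow_left₀ ha h n)]
  · rw [max_eq_left h, max_eq_left (pow_le_pow_left₀ hb h n)]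

theorem transfer (hN : AbsOn K N) (hK : EigClosed K) {S U : Finset G2} {C : ℝ} (hC : 0 ≤ C)
    {Γ₁ Γ₂ : Subgroup G2} (hc : Cheap S U C Γ₁) {W : ℝ} (hW2 : 2 ≤ W)
    (hW : ∀ s, s ∈ S ∨ s ∈ U → InK K s.1 ∧ nsz N s.1 + 2 ≤ W)
    (hwc : ∀ g ∈ Γ₂, IsSemisimpleElt g → ¬ IsOfFinOrder g → ∃ h ∈ Γ₁, WeaklyComm g h)
    {g : G2} (hg : g ∈ Γ₂) (hgK : InK K g.1) {x : ℂ} (hx0 : x ≠ 0)
    (ht : x + x⁻¹ = g.1.trace) :
    N x ≤ (max ‖x‖ ‖x⁻¹‖) ^ (3 * C * Real.log (1 + W)) := by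
  have hl : 0 ≤ Real.log (1 + W) := Real.log_nonneg (by linarith)
  have hM0 : 0 ≤ 3 * C * Real.log (1 + W) := by positivity
  have hone : (1 : ℝ) ≤ (max ‖x‖ ‖x⁻¹‖) ^ (3 * C * Real.log (1 + W)) :=
    Real.one_le_rpow (one_le_max hx0) hM0
  have hxK : x ∈ K := hK _ hgK.trace x hx0 ht
  -- a root of unity has `N x = 1`
  have hru : ∀ n : ℕ, 0 < n → x ^ n = 1 → N x ≤ 1 := by
    intro n hn h
    have h1 : N x ^ n = 1 := by rw [← hN.pow hxK, h, hN.one]
    exact ((pow_eq_one_iff_of_nonneg (hN.nonneg x) hn.ne').1 h1).le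
  by_cases hfin : IsOfFinOrder g
  · obtain ⟨n, hn, hgn⟩ := isOfFinOrder_iff_pow_eq_one.1 hfin
    have h1 := trace_pow hx0 ht n
    rw [hgn] at h1
    have h2 : (1 : G2).1.trace = 2 := by
      rw [Matrix.SpecialLinearGroup.coe_one]
      simp [Matrix.trace_fin_two]
    rw [h2] at h1
    have hxn0 : x ^ n ≠ 0 := pow_ne_zero _ hx0
    have h3 : (x ^ n - 1) ^ 2 = 0 := by
      have e1 : x ^ n * (x ^ n)⁻¹ = 1 := mul_inv_cancel₀ hxn0
      linear_combination x ^ n * h1 - e1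
    have h4 : x ^ n = 1 := sub_eq_zero.1 (pow_eq_zero_iff (two_ne_zero) |>.1 h3)
    exact (hru n hn h4).trans hone
  by_cases hss : IsSemisimpleElt g
  · obtain ⟨h, hh, z, w, hz, hw, k, l, hkl, hne⟩ := hwc g hg hss hfin
    obtain ⟨hz0, hzt⟩ := eigenvalue_spec hz
    obtain ⟨hw0, hwt⟩ := eigenvalue_spec hw
    have hhK : InK K h.1 := (cheap_bound hN hc hW2 hW hh).1
    have hk0 : k ≠ 0 := by
      rintro rfl
      exact hne (zpow_zero z)
    have hzx := root_cases hx0 hz0 (hzt.trans ht.symm)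
    -- choose `w'`
    obtain ⟨w', hw'0, hw't, hpow⟩ : ∃ w' : ℂ, w' ≠ 0 ∧ w' + w'⁻¹ = h.1.trace ∧
        x ^ k.natAbs = w' ^ l.natAbs := by
      have hx' : x ^ k = w ^ l ∨ x ^ k = (w⁻¹) ^ l := by
        rcases hzx with rfl | rfl
        · exact Or.inl hkl
        · right
          rw [_root_.inv_zpow, ← hkl, _root_.inv_zpow, inv_inv]
      obtain ⟨w1, hw10, hw1t, h1⟩ : ∃ w1 : ℂ, w1 ≠ 0 ∧ w1 + w1⁻¹ = h.1.trace ∧
          x ^ k = w1 ^ l := by
        rcases hx' with h | h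
        · exact ⟨w, hw0, hwt, h⟩
        · exact ⟨w⁻¹, inv_ne_zero hw0, by rw [inv_inv, add_comm]; exact hwt, h⟩
      have h2 : x ^ k.natAbs = w1 ^ l ∨ x ^ k.natAbs = (w1⁻¹) ^ l := by
        rcases Int.natAbs_eq k with hk | hk
        · left
          rw [← h1, ← zpow_natCast, ← hk]
        · right
          rw [_root_.inv_zpow, ← h1, ← zpow_natCast, ← _root_.zpow_neg]
          congr 1
          omega
      obtain ⟨w2, hw20, hw2t, h3⟩ : ∃ w2 : ℂ, w2 ≠ 0 ∧ w2 + w2⁻¹ = h.1.trace ∧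
          x ^ k.natAbs = w2 ^ l := by
        rcases h2 with h | h
        · exact ⟨w1, hw10, hw1t, h⟩
        · exact ⟨w1⁻¹, inv_ne_zero hw10, by rw [inv_inv, add_comm]; exact hw1t, h⟩
      rcases Int.natAbs_eq l with hl | hl
      · refine ⟨w2, hw20, hw2t, ?_⟩
        rw [h3, ← zpow_natCast, ← hl]
      · refine ⟨w2⁻¹, inv_ne_zero hw20, by rw [inv_inv, add_comm]; exact hw2t, ?_⟩
        rw [h3, ← zpow_natCast, _root_.inv_zpow, ← _root_.zpow_neg]
        congr 1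
    have hw'K : w' ∈ K := hK _ hhK.trace w' hw'0 hw't
    set κ := k.natAbs with hκ
    set lam := l.natAbs with hlam
    have hκ0 : κ ≠ 0 := by simpa [hκ] using hk0
    set M := 3 * C * Real.log (1 + W) with hM
    have hb1 := one_le_max hw'0
    have hbd : N w' ≤ (max ‖w'‖ ‖w'⁻¹‖) ^ M :=
      eig_bound hN hC hc hW2 hW hh hw'K hw'0 hw't hb1 (le_max_left _ _) (le_max_right _ _)
    have hmax : (max ‖w'‖ ‖w'⁻¹‖) ^ lam = (max ‖x‖ ‖x⁻¹‖) ^ κ := by
      rw [max_pow' (norm_nonneg _) (norm_nonneg _), max_pow' (norm_nonneg _) (norm_nonneg _),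
        ← norm_pow, ← norm_pow, ← norm_pow, ← norm_pow, inv_pow, inv_pow, hpow]
    have h5 : N x ^ κ ≤ ((max ‖x‖ ‖x⁻¹‖) ^ M) ^ κ := by
      calc N x ^ κ = N w' ^ lam := by rw [← hN.pow hxK, hpow, hN.pow hw'K]
        _ ≤ ((max ‖w'‖ ‖w'⁻¹‖) ^ M) ^ lam := pow_le_pow_left₀ (hN.nonneg _) hbd _
        _ = ((max ‖w'‖ ‖w'⁻¹‖) ^ lam) ^ M := by
            rw [← Real.rpow_natCast, ← Real.rpow_natCast, ← Real.rpow_mul (by positivity),
              ← Real.rpow_mul (by positivity), mul_comm]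
        _ = ((max ‖x‖ ‖x⁻¹‖) ^ κ) ^ M := by rw [hmax]
        _ = ((max ‖x‖ ‖x⁻¹‖) ^ M) ^ κ := by
            rw [← Real.rpow_natCast, ← Real.rpow_natCast, ← Real.rpow_mul (by positivity),
              ← Real.rpow_mul (by positivity), mul_comm]
    exact le_of_pow_le_pow_left₀ hκ0 (by positivity) h5
  · -- trace `2` or `-2`
    refine le_trans ?_ hone
    by_cases h1 : g.1.trace = 2
    · rw [h1] at ht
      have h3 : (x - 1) ^ 2 = 0 := by
        have e1 : x * x⁻¹ = 1 := mul_inv_cancel₀ hx0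
        linear_combination x * ht - e1
      have h4 : x = 1 := sub_eq_zero.1 (pow_eq_zero_iff (two_ne_zero) |>.1 h3)
      exact hru 1 one_pos (by rw [h4, one_pow])
    by_cases h2 : g.1.trace = -2
    · rw [h2] at ht
      have h3 : (x + 1) ^ 2 = 0 := by
        have e1 : x * x⁻¹ = 1 := mul_inv_cancel₀ hx0
        linear_combination x * ht - e1
      have h4 : x = -1 := eq_neg_of_add_eq_zero_left (pow_eq_zero_iff (two_ne_zero) |>.1 h3)
      exact hru 2 two_pos (by rw [h4]; norm_num)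
    · exact absurd (semisimple_of_trace h1 h2) hss

end Pool.Agent.MPc2b80f
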