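import Pool.Agent.Lib.MP_c2b80f_al.Defs

namespace Pool.Agent.MPc2b80f

open Matrix

variable {K : Subfield ℂ} {N : ℂ → ℝ}

namespace AbsOn

theorem pow (hN : AbsOn K N) {a : ℂ} (ha : a ∈ K) (n : ℕ) : N (a ^ n) = N a ^ n := by
  induction n with
  | zero => simpa using hN.one
  | succ n ih => rw [pow_succ, pow_succ, hN.mul _ (K.pow_mem ha n) _ ha, ih]

theorem neg_one (hN : AbsOn K N) : N (-1) = 1 := by
  have h := hN.mul (-1) (K.neg_mem K.one_mem) (-1) (K.neg_mem K.one_mem)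
  have h1 : N (-1) * N (-1) = 1 := by
    rw [← h]
    simpa using hN.one
  nlinarith [hN.nonneg (-1)]

theorem neg (hN : AbsOn K N) {a : ℂ} (ha : a ∈ K) : N (-a) = N a := by
  have h := hN.mul (-1) (K.neg_mem K.one_mem) a ha
  rw [hN.neg_one, one_mul, neg_one_mul] at h
  exact h

theorem sub (hN : AbsOn K N) {a b : ℂ} (ha : a ∈ K) (hb : b ∈ K) : N (a - b) ≤ N a + N b := by
  rw [sub_eq_add_neg]
  refine (hN.add a ha (-b) (K.neg_mem hb)).trans ?_
  rw [hN.neg hb]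

theorem inv (hN : AbsOn K N) {a : ℂ} (ha : a ∈ K) (h0 : a ≠ 0) : N a * N a⁻¹ = 1 := by
  rw [← hN.mul a ha _ (K.inv_mem ha), mul_inv_cancel₀ h0, hN.one]

theorem pos (hN : AbsOn K N) {a : ℂ} (ha : a ∈ K) (h0 : a ≠ 0) : 0 < N a := by
  have h := hN.inv ha h0
  rcases (hN.nonneg a).lt_or_eq with h1 | h1
  · exact h1
  · rw [← h1, zero_mul] at h
    exact absurd h (by norm_num)

theorem inv_eq (hN : AbsOn K N) {a : ℂ} (ha : a ∈ K) (h0 : a ≠ 0) : N a⁻¹ = (N a)⁻¹ := by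
  exact eq_inv_of_mul_eq_one_right (hN.inv ha h0)

theorem zpow (hN : AbsOn K N) {a : ℂ} (ha : a ∈ K) (h0 : a ≠ 0) (n : ℤ) :
    N (a ^ n) = N a ^ n := by
  cases n with
  | ofNat n => simpa using hN.pow ha n
  | negSucc n =>
    rw [zpow_negSucc, zpow_negSucc, hN.inv_eq (K.pow_mem ha _) (pow_ne_zero _ h0), hN.pow ha]

theorem two (hN : AbsOn K N) : N 2 ≤ 2 := by
  have := hN.add 1 K.one_mem 1 K.one_mem
  rw [hN.one] at this
  norm_num at this
  linarith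

end AbsOn

theorem nsz_nonneg (hN : AbsOn K N) (g : Matrix (Fin 2) (Fin 2) ℂ) : 0 ≤ nsz N g :=
  Finset.sum_nonneg fun _ _ => Finset.sum_nonneg fun _ _ => hN.nonneg _

theorem nsz_def (g : Matrix (Fin 2) (Fin 2) ℂ) :
    nsz N g = N (g 0 0) + N (g 0 1) + (N (g 1 0) + N (g 1 1)) := by
  simp [nsz, Fin.sum_univ_two]

theorem InK.mul {g h : Matrix (Fin 2) (Fin 2) ℂ} (hg : InK K g) (hh : InK K h) :
    InK K (g * h) := by
  intro i j
  rw [Matrix.mul_apply]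
  exact K.sum_mem fun k _ => K.mul_mem (hg i k) (hh k j)

theorem InK.one : InK K (1 : Matrix (Fin 2) (Fin 2) ℂ) := by
  intro i j
  rw [Matrix.one_apply]
  split_ifs
  · exact K.one_mem
  · exact K.zero_mem

theorem InK.pow {g : Matrix (Fin 2) (Fin 2) ℂ} (hg : InK K g) (n : ℕ) : InK K (g ^ n) := by
  induction n with
  | zero => simpa using InK.one
  | succ n ih => rw [pow_succ]; exact ih.mul hg

theorem InK.trace {g : Matrix (Fin 2) (Fin 2) ℂ} (hg : InK K g) : g.trace ∈ K := by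
  rw [Matrix.trace_fin_two]
  exact K.add_mem (hg 0 0) (hg 1 1)

theorem nsz_mul (hN : AbsOn K N) {g h : Matrix (Fin 2) (Fin 2) ℂ} (hg : InK K g)
    (hh : InK K h) : nsz N (g * h) ≤ nsz N g * nsz N h := by
  have key : ∀ i j, N ((g * h) i j) ≤ N (g i 0) * N (h 0 j) + N (g i 1) * N (h 1 j) := by
    intro i j
    rw [Matrix.mul_apply, Fin.sum_univ_two]
    refine (hN.add _ (K.mul_mem (hg i 0) (hh 0 j)) _ (K.mul_mem (hg i 1) (hh 1 j))).trans ?_
    rw [hN.mul _ (hg i 0) _ (hh 0 j), hN.mul _ (hg i 1) _ (hh 1 j)]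
  rw [nsz_def, nsz_def, nsz_def]
  have a00 := key 0 0
  have a01 := key 0 1
  have a10 := key 1 0
  have a11 := key 1 1
  have e := hN.nonneg
  nlinarith [mul_nonneg (e (g 0 0)) (e (h 1 0)), mul_nonneg (e (g 0 0)) (e (h 1 1)),
    mul_nonneg (e (g 0 1)) (e (h 0 0)), mul_nonneg (e (g 0 1)) (e (h 0 1)),
    mul_nonneg (e (g 1 0)) (e (h 1 0)), mul_nonneg (e (g 1 0)) (e (h 1 1)),
    mul_nonneg (e (g 1 1)) (e (h 0 0)), mul_nonneg (e (g 1 1)) (e (h 0 1))]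

theorem nsz_one (hN : AbsOn K N) : nsz N (1 : Matrix (Fin 2) (Fin 2) ℂ) = 2 := by
  rw [nsz_def]
  simp [hN.one, hN.zero]
  norm_num

theorem inv_coe (g : G2) : (g⁻¹).1 = !![g.1 1 1, -g.1 0 1; -g.1 1 0, g.1 0 0] := by
  rw [Matrix.SpecialLinearGroup.SL2_inv_expl]
  rfl

theorem nsz_inv (hN : AbsOn K N) {g : G2} (hg : InK K g.1) : nsz N (g⁻¹).1 = nsz N g.1 := by
  rw [inv_coe, nsz_def, nsz_def]
  simp [hN.neg (hg 0 1), hN.neg (hg 1 0)]
  ring

theorem InK.inv {g : G2} (hg : InK K g.1) : InK K (g⁻¹).1 := by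
  rw [inv_coe]
  intro i j
  fin_cases i <;> fin_cases j <;> simp [hg 0 0, hg 0 1, hg 1 0, hg 1 1]

theorem trace_inv (g : G2) : (g⁻¹).1.trace = g.1.trace := by
  rw [inv_coe, Matrix.trace_fin_two, Matrix.trace_fin_two]
  simp
  ring

/-- Chebyshev type coefficients. -/
noncomputable def cheb (x y : ℂ) : ℕ → ℂ
  | 0 => 0
  | n + 1 => x * cheb x y n + y ^ n

theorem cheb_rec {x y : ℂ} (h : x * y = 1) (n : ℕ) :
    cheb x y (n + 2) = (x + y) * cheb x y (n + 1) - cheb x y n := by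
  have e : cheb x y (n + 2) = x * cheb x y (n + 1) + y ^ (n + 1) := rfl
  have e1 : cheb x y (n + 1) = x * cheb x y n + y ^ n := rfl
  rw [e, add_mul]
  have : y * cheb x y (n + 1) = cheb x y n + y ^ (n + 1) := by
    rw [e1]
    linear_combination (cheb x y n) * h
  rw [this]
  ring

theorem cheb_bound (hN : AbsOn K N) {x y : ℂ} (hx : x ∈ K) (hy : y ∈ K) {B : ℝ} (hB : 1 ≤ B)
    (hxB : N x ≤ B) (hyB : N y ≤ B) (n : ℕ) :
    cheb x y n ∈ K ∧ N (cheb x y n) ≤ n * B ^ n := by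
  induction n with
  | zero => exact ⟨by simpa [cheb] using K.zero_mem, by simp [cheb, hN.zero]⟩
  | succ n ih =>
    obtain ⟨h1, h2⟩ := ih
    refine ⟨K.add_mem (K.mul_mem hx h1) (K.pow_mem hy n), ?_⟩
    have e : cheb x y (n + 1) = x * cheb x y n + y ^ n := rfl
    rw [e]
    refine (hN.add _ (K.mul_mem hx h1) _ (K.pow_mem hy n)).trans ?_
    rw [hN.mul _ hx _ h1, hN.pow hy]
    have h3 : N x * N (cheb x y n) ≤ B * (n * B ^ n) :=
      mul_le_mul hxB h2 (hN.nonneg _) (by linarith)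
    have h4 : N y ^ n ≤ B ^ n := pow_le_pow_left₀ (hN.nonneg _) hyB n
    have h5 : B ^ n ≤ B ^ (n + 1) := pow_le_pow_right₀ hB (Nat.le_succ n)
    push_cast
    calc N x * N (cheb x y n) + N y ^ n ≤ B * (n * B ^ n) + B ^ (n + 1) := by linarith
      _ = (n + 1) * B ^ (n + 1) := by ring

theorem cayley (g : G2) : g.1 * g.1 = g.1.trace • g.1 - 1 := by
  have hd := g.2
  rw [Matrix.det_fin_two] at hd
  ext i j
  rw [Matrix.mul_apply, Fin.sum_univ_two]
  fin_cases i <;> fin_cases j <;> simp [Matrix.trace_fin_two]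
  · linear_combination -hd
  · ring
  · ring
  · linear_combination -hd

theorem pow_formula (g : G2) {x y : ℂ} (h : x * y = 1) (ht : x + y = g.1.trace) (n : ℕ) :
    g.1 ^ (n + 1) = cheb x y (n + 1) • g.1 - cheb x y n • (1 : Matrix (Fin 2) (Fin 2) ℂ) := by
  induction n with
  | zero => simp [cheb]
  | succ n ih =>
    rw [pow_succ, ih, sub_mul, smul_mul_assoc, cayley, cheb_rec h n, ht]
    simp only [smul_mul_assoc, one_mul]
    rw [smul_sub, sub_smul, smul_smul, mul_comm (g.1.trace)]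
    abel

theorem nsz_add_le (hN : AbsOn K N) {g h : Matrix (Fin 2) (Fin 2) ℂ} (hg : InK K g)
    (hh : InK K h) : nsz N (g - h) ≤ nsz N g + nsz N h := by
  rw [nsz_def, nsz_def, nsz_def]
  simp only [Matrix.sub_apply]
  have := hN.sub (hg 0 0) (hh 0 0)
  have := hN.sub (hg 0 1) (hh 0 1)
  have := hN.sub (hg 1 0) (hh 1 0)
  have := hN.sub (hg 1 1) (hh 1 1)
  linarith

theorem nsz_smul (hN : AbsOn K N) {c : ℂ} (hc : c ∈ K) {g : Matrix (Fin 2) (Fin 2) ℂ}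
    (hg : InK K g) : nsz N (c • g) = N c * nsz N g := by
  rw [nsz_def, nsz_def]
  simp only [Matrix.smul_apply, smul_eq_mul]
  rw [hN.mul c hc _ (hg 0 0), hN.mul c hc _ (hg 0 1), hN.mul c hc _ (hg 1 0),
    hN.mul c hc _ (hg 1 1)]
  ring

theorem InK.smul {c : ℂ} (hc : c ∈ K) {g : Matrix (Fin 2) (Fin 2) ℂ} (hg : InK K g) :
    InK K (c • g) := fun i j => by
  rw [Matrix.smul_apply, smul_eq_mul]
  exact K.mul_mem hc (hg i j)

/-- Size of powers. -/
theorem nsz_pow (hN : AbsOn K N) (g : G2) (hg : InK K g.1) {x y : ℂ} (hx : x ∈ K) (hy : y ∈ K)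
    (h : x * y = 1) (ht : x + y = g.1.trace) {B : ℝ} (hB : 1 ≤ B) (hxB : N x ≤ B)
    (hyB : N y ≤ B) (n : ℕ) :
    nsz N (g.1 ^ n) ≤ (n + 1) * B ^ n * (nsz N g.1 + 2) := by
  cases n with
  | zero =>
    rw [pow_zero, nsz_one hN]
    have := nsz_nonneg hN g.1
    simp
    linarith
  | succ n =>
    rw [pow_formula g h ht n]
    obtain ⟨m1, b1⟩ := cheb_bound hN hx hy hB hxB hyB (n + 1)
    obtain ⟨m0, b0⟩ := cheb_bound hN hx hy hB hxB hyB n
    refine (nsz_add_le hN (hg.smul m1) (InK.one.smul m0)).trans ?_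
    rw [nsz_smul hN m1 hg, nsz_smul hN m0 InK.one, nsz_one hN]
    have hs := nsz_nonneg hN g.1
    have hBp : B ^ n ≤ B ^ (n + 1) := pow_le_pow_right₀ hB (Nat.le_succ n)
    have hB0 : 0 ≤ B ^ (n + 1) := by positivity
    have e1 : N (cheb x y (n + 1)) * nsz N g.1 ≤ ((n + 1 : ℕ) * B ^ (n + 1)) * nsz N g.1 :=
      mul_le_mul_of_nonneg_right b1 hs
    have e0 : N (cheb x y n) ≤ (n : ℝ) * B ^ (n + 1) :=
      b0.trans (mul_le_mul_of_nonneg_left hBp (Nat.cast_nonneg n))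
    push_cast at e1 ⊢
    nlinarith [mul_nonneg hB0 hs]

end Pool.Agent.MPc2b80f
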